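import Pool.Agent.Helper82.YM.Frame

/-!
# Axial frames on the periodic lattice: gauge fixed configurations
-/

open MeasureTheory
open scoped Matrix.Norms.Frobenius

noncomputable section

set_option linter.unusedSectionVars false

namespace Pool.Agent.Helper82.YM

open Pool.Agent.LGT (tr haar)

section Frames

variable {L : ℕ}

lemma ts_apply_self (i : Fin 4) : (ts i : TV L) i = 1 := by simp [ts]

lemma ts_apply_ne {i l : Fin 4} (h : l ≠ i) : (ts i : TV L) l = 0 := by
  simp [ts, Pi.single_eq_of_ne h]

lemma nsmul_ts_apply_self (n : ℕ) (i : Fin 4) : (n • (ts i : TV L)) i = n := by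
  simp [ts_apply_self]

lemma nsmul_ts_apply_ne (n : ℕ) {i l : Fin 4} (h : l ≠ i) : (n • (ts i : TV L)) l = 0 := by
  simp [ts_apply_ne h]

/-- `pt` does not see the coordinates `≥ k`. -/
lemma pt_add_ts {x : TV L} {i k : Fin 4} (h : k ≤ i) : pt (x + ts i) k = pt x k := by
  funext l
  simp only [pt]
  split_ifs with hl
  · rw [Pi.add_apply, ts_apply_ne (ne_of_lt (lt_of_lt_of_le hl h)), add_zero]
  · rfl

/-- The endpoint of the `i`-th piece of the path when the later coordinates vanish. -/
lemma pt_add_nsmul [NeZero L] {x : TV L} {i : Fin 4} (h : ∀ l, i < l → x l = 0) :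
    pt x i + (x i).val • ts i = x := by
  funext l
  rcases lt_trichotomy l i with hl | hl | hl
  · rw [Pi.add_apply, nsmul_ts_apply_ne _ hl.ne, add_zero, pt, if_pos hl]
  · subst hl
    rw [Pi.add_apply, nsmul_ts_apply_self, pt, if_neg (lt_irrefl _), zero_add, ZMod.natCast_zmod_val]
  · rw [Pi.add_apply, nsmul_ts_apply_ne _ hl.ne', add_zero, pt, if_neg hl.not_gt, h l hl]

/-- The `l`-th piece of the frame. -/
def piece {Γ : Type*} [Group Γ] (U : TE L → Γ) (x : TV L) (l : Fin 4) : Γ :=
  tline U (pt x l) l (x l).val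

lemma frame_eq {Γ : Type*} [Group Γ] (U : TE L → Γ) (x : TV L) :
    frame U x = piece U x 0 * piece U x 1 * piece U x 2 * piece U x 3 := rfl

lemma piece_zero [NeZero L] {Γ : Type*} [Group Γ] (U : TE L → Γ) {x : TV L} {l : Fin 4}
    (h : x l = 0) : piece U x l = 1 := by
  rw [piece, h, ZMod.val_zero]
  rfl

lemma piece_lt {Γ : Type*} [Group Γ] (U : TE L → Γ) {x : TV L} {l i : Fin 4} (h : l < i) :
    piece U (x + ts i) l = piece U x l := by
  rw [piece, piece, pt_add_ts h.le, Pi.add_apply, ts_apply_ne h.ne, add_zero]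

lemma piece_self [NeZero L] {Γ : Type*} [Group Γ] (U : TE L → Γ) {x : TV L} {i : Fin 4}
    (h : ∀ l, i < l → x l = 0) (hv : (x i).val + 1 < L) :
    piece U (x + ts i) i = piece U x i * U (x, i) := by
  rw [piece, piece, pt_add_ts le_rfl, Pi.add_apply, ts_apply_self]
  have h1 : (x i + 1).val = (x i).val + 1 := by
    have : Fact (1 < L) := ⟨by omega⟩
    rw [ZMod.val_add_of_lt]
    · rw [ZMod.val_one]
    · rw [ZMod.val_one]; exact hv
  rw [h1, tline, pt_add_nsmul h]

lemma piece_gt [NeZero L] {Γ : Type*} [Group Γ] (U : TE L → Γ) {x : TV L} {l i : Fin 4}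
    (hl : i < l) (h : x l = 0) : piece U (x + ts i) l = 1 := by
  refine piece_zero U ?_
  rw [Pi.add_apply, ts_apply_ne hl.ne', add_zero, h]

/-- The frame along a tree edge. -/
lemma frame_step [NeZero L] {Γ : Type*} [Group Γ] (U : TE L → Γ) {x : TV L} {i : Fin 4}
    (h : ∀ l, i < l → x l = 0) (hv : (x i).val + 1 < L) :
    frame U (x + ts i) = frame U x * U (x, i) := by
  rw [frame_eq, frame_eq]
  fin_cases i
  · have h1 := h 1 (by decide)
    have h2 := h 2 (by decide)
    have h3 := h 3 (by decide)
    have e0 := piece_self U h hv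
    have e1 := piece_gt U (i := 0) (l := 1) (by decide) h1
    have e2 := piece_gt U (i := 0) (l := 2) (by decide) h2
    have e3 := piece_gt U (i := 0) (l := 3) (by decide) h3
    have f1 := piece_zero U h1
    have f2 := piece_zero U h2
    have f3 := piece_zero U h3
    simp only [Fin.zero_eta, Fin.isValue] at *
    rw [e0, e1, e2, e3, f1, f2, f3]
    simp
  · have h2 := h 2 (by decide)
    have h3 := h 3 (by decide)
    have e0 := piece_lt U (x := x) (i := 1) (l := 0) (by decide)
    have e1 := piece_self U h hv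
    have e2 := piece_gt U (i := 1) (l := 2) (by decide) h2
    have e3 := piece_gt U (i := 1) (l := 3) (by decide) h3
    have f2 := piece_zero U h2
    have f3 := piece_zero U h3
    simp only [Fin.mk_one, Fin.isValue] at *
    rw [e0, e1, e2, e3, f2, f3]
    simp [mul_assoc]
  · have h3 := h 3 (by decide)
    have e0 := piece_lt U (x := x) (i := 2) (l := 0) (by decide)
    have e1 := piece_lt U (x := x) (i := 2) (l := 1) (by decide)
    have e2 := piece_self U h hv
    have e3 := piece_gt U (i := 2) (l := 3) (by decide) h3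
    have f3 := piece_zero U h3
    simp only [Fin.reduceFinMk, Fin.isValue] at *
    rw [e0, e1, e2, e3, f3]
    simp [mul_assoc]
  · have e0 := piece_lt U (x := x) (i := 3) (l := 0) (by decide)
    have e1 := piece_lt U (x := x) (i := 3) (l := 1) (by decide)
    have e2 := piece_lt U (x := x) (i := 3) (l := 2) (by decide)
    have e3 := piece_self U h hv
    simp only [Fin.reduceFinMk, Fin.isValue] at *
    rw [e0, e1, e2, e3]
    simp [mul_assoc]

/-- On tree edges the gauge-fixed configuration is `1`. -/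
theorem VV_tree [NeZero L] {Γ : Type*} [Group Γ] (U : TE L → Γ) {e : TE L} (he : treeE e) :
    VV U e = 1 := by
  obtain ⟨x, i⟩ := e
  rw [VV, frame_step U he.1 he.2]
  simp

/-- Lines of the gauge-fixed configuration. -/
lemma tline_VV {Γ : Type*} [Group Γ] (U : TE L → Γ) (x : TV L) (i : Fin 4) (n : ℕ) :
    tline (VV U) x i n = frame U x * tline U x i n * (frame U (x + n • ts i))⁻¹ := by
  induction n with
  | zero => simp [tline]
  | succ n ih =>
    rw [tline, ih, tline, VV]
    simp only
    rw [show x + n • ts i + ts i = x + (n + 1) • ts i by rw [add_smul, one_smul, add_assoc]]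
    group

/-- The plaquettes of the gauge-fixed configuration are conjugate to those of `U`. -/
theorem tplaq_VV {Γ : Type*} [Group Γ] (U : TE L → Γ) (x : TV L) (i j : Fin 4) :
    tplaq (VV U) x i j = frame U x * tplaq U x i j * (frame U x)⁻¹ := by
  simp only [tplaq, VV]
  rw [show x + ts j + ts i = x + ts i + ts j by abel]
  group

/-- Same for rectangles. -/
theorem trect_VV {Γ : Type*} [Group Γ] (U : TE L → Γ) (x : TV L) (i j : Fin 4) (a b : ℕ) :
    trect (VV U) x i j a b = frame U x * trect U x i j a b * (frame U x)⁻¹ := by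
  simp only [trect, tline_VV]
  rw [show x + b • ts j + a • ts i = x + a • ts i + b • ts j by abel]
  group

/-- One step of the ladder. -/
lemma VV_ladder [NeZero L] {Γ : Type*} [Group Γ] (U : TE L → Γ) {x : TV L} {i l : Fin 4}
    (hil : i < l) (hl : ∀ m, l < m → x m = 0) (hv : x l ≠ 0) :
    VV U (x, i) = (tplaq (VV U) (x - ts l) i l)⁻¹ * VV U (x - ts l, i) := by
  have hL : 1 < L := by
    by_contra h
    have hL1 : L = 1 := by
      have := NeZero.ne L
      omega
    subst hL1
    exact hv (Subsingleton.elim _ _)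
  have : Fact (1 < L) := ⟨hL⟩
  have hval : ((x - ts l : TV L) l).val + 1 = (x l).val := by
    rw [Pi.sub_apply, ts_apply_self, ZMod.val_sub, ZMod.val_one]
    · have : 0 < (x l).val := ZMod.val_pos.mpr hv
      omega
    · rw [ZMod.val_one]
      exact ZMod.val_pos.mpr hv
  have h1 : treeE (x - ts l, l) := by
    refine ⟨fun m hm => ?_, ?_⟩
    · simp only at hm ⊢
      rw [Pi.sub_apply, ts_apply_ne hm.ne', sub_zero, hl m hm]
    · simp only
      rw [hval]
      exact ZMod.val_lt _
  have h2 : treeE (x - ts l + ts i, l) := by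
    refine ⟨fun m hm => ?_, ?_⟩
    · simp only at hm ⊢
      rw [Pi.add_apply, Pi.sub_apply, ts_apply_ne hm.ne', ts_apply_ne (hil.trans hm).ne', sub_zero,
        add_zero, hl m hm]
    · simp only
      rw [Pi.add_apply, ts_apply_ne hil.ne', add_zero, hval]
      exact ZMod.val_lt _
  rw [tplaq, VV_tree U h1, VV_tree U h2, sub_add_cancel]
  group

/-- The gauge fixed variable of an edge is a product of conjugates of plaquettes. -/
lemma VV_le [NeZero L] {N : ℕ} {G : Subgroup (Matrix.unitaryGroup (Fin N) ℂ)} (i : Fin 4) (n : ℕ) :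
    ∀ x : TV L, (x i).val + 1 < L → ∑ l, (if i < l then (x l).val else 0) = n →
      ∃ p : ℕ → TV L × Fin 4 × Fin 4, (∀ s, (p s).2.1 ≠ (p s).2.2) ∧
        ∀ U : TE L → G, dev (VV U (x, i)) ≤
          ∑ s ∈ Finset.range n, dev (tplaq U (p s).1 (p s).2.1 (p s).2.2) := by
  induction n with
  | zero =>
    intro x hx hs
    refine ⟨fun _ => (0, 0, 1), fun _ => (by decide : (0 : Fin 4) ≠ 1), fun U => ?_⟩
    have h : ∀ l, i < l → x l = 0 := by
      intro l hl
      have h1 := (Finset.sum_eq_zero_iff.mp hs) l (Finset.mem_univ _)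
      rw [if_pos hl] at h1
      exact (ZMod.val_eq_zero _).mp h1
    rw [VV_tree U (e := (x, i)) ⟨h, hx⟩, dev_one]
    simp
  | succ n ih =>
    intro x hx hs
    -- the last nonzero coordinate
    have hex : (Finset.univ.filter fun l => i < l ∧ x l ≠ 0).Nonempty := by
      by_contra hne
      rw [Finset.not_nonempty_iff_eq_empty] at hne
      have : ∑ l, (if i < l then (x l).val else 0) = 0 := by
        refine Finset.sum_eq_zero fun l _ => ?_
        split_ifs with hl
        · by_contra h0
          have : l ∈ (Finset.univ.filter fun l => i < l ∧ x l ≠ 0) := by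
            simp only [Finset.mem_filter, Finset.mem_univ, true_and]
            refine ⟨hl, fun h => h0 ?_⟩
            rw [h, ZMod.val_zero]
          rw [hne] at this
          exact absurd this (Finset.notMem_empty _)
        · rfl
      omega
    obtain ⟨l, hlm, hmax⟩ := Finset.exists_max_image _ id hex
    simp only [Finset.mem_filter, Finset.mem_univ, true_and, id] at hlm hmax
    obtain ⟨hil, hv⟩ := hlm
    have hl0 : ∀ m, l < m → x m = 0 := by
      intro m hm
      by_contra h0
      exact absurd (hmax m ⟨hil.trans hm, h0⟩) (not_le.mpr hm)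
    have hL : 1 < L := by omega
    have : Fact (1 < L) := ⟨hL⟩
    have hval : ((x - ts l : TV L) l).val + 1 = (x l).val := by
      rw [Pi.sub_apply, ts_apply_self, ZMod.val_sub, ZMod.val_one]
      · have : 0 < (x l).val := ZMod.val_pos.mpr hv
        omega
      · rw [ZMod.val_one]
        exact ZMod.val_pos.mpr hv
    have hne : ∀ m, m ≠ l → (x - ts l : TV L) m = x m := fun m hm => by
      rw [Pi.sub_apply, ts_apply_ne hm, sub_zero]
    obtain ⟨p, hp1, hp2⟩ := ih (x - ts l) (by rw [hne i hil.ne]; exact hx) (by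
      rw [← Finset.add_sum_erase _ _ (Finset.mem_univ l), if_pos hil] at hs ⊢
      have : ∑ m ∈ Finset.univ.erase l, (if i < m then ((x - ts l : TV L) m).val else 0) =
          ∑ m ∈ Finset.univ.erase l, (if i < m then (x m).val else 0) := by
        refine Finset.sum_congr rfl fun m hm => ?_
        rw [hne m (Finset.ne_of_mem_erase hm)]
      rw [this]
      omega)
    refine ⟨fun s => Nat.casesOn s (x - ts l, i, l) p, ?_, fun U => ?_⟩
    · intro s
      cases s with
      | zero => exact hil.ne
      | succ s => exact hp1 s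
    · rw [Finset.sum_range_succ']
      rw [VV_ladder U hil hl0 hv]
      refine (dev_mul_le _ _).trans ?_
      rw [dev_inv, tplaq_VV, dev_conj, add_comm]
      exact add_le_add (hp2 U) le_rfl

variable {N : ℕ} {G : Subgroup (Matrix.unitaryGroup (Fin N) ℂ)} [CompactSpace G]

/-- `V_e` for `e = (x, i)` is a product of conjugates of at most `3 ρ` plaquettes. -/
theorem VV_moment [NeZero L] (β : ℝ) {K : ℝ} (hK : 0 ≤ K)
    (h : ∀ (x : TV L) (i j : Fin 4), i ≠ j → ∫ U, dev (tplaq U x i j) ^ 4 ∂(tmu G β L) ≤ K)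
    (ρ : ℕ) (hρ : ρ + 1 < L) (e : TE L) (he : ∀ l, (e.1 l).val ≤ ρ) :
    ∫ U, dev (VV U e) ^ 4 ∂(tmu G β L) ≤ (3 * ρ) ^ 4 * K := by
  obtain ⟨x, i⟩ := e
  simp only at he
  obtain ⟨p, hp1, hp2⟩ := VV_le (G := G) i _ x (by have := he i; omega) rfl
  set n := ∑ l, (if i < l then (x l).val else 0) with hn
  have hn3 : n ≤ 3 * ρ := by
    have h0 : n = ∑ l ∈ Finset.univ.filter (fun l => i < l), (x l).val := by
      rw [hn, Finset.sum_filter]
    rw [h0]
    have hcard : (Finset.univ.filter fun l : Fin 4 => i < l).card ≤ 3 := by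
      fin_cases i <;> decide
    calc ∑ l ∈ Finset.univ.filter (fun l => i < l), (x l).val
        ≤ (Finset.univ.filter fun l : Fin 4 => i < l).card • ρ :=
          Finset.sum_le_card_nsmul _ _ _ fun l _ => he l
      _ ≤ 3 * ρ := by
          rw [smul_eq_mul]
          exact Nat.mul_le_mul_right _ hcard
  have hpt : ∀ U : TE L → G, dev (VV U (x, i)) ^ 4 ≤
      (n : ℝ) ^ 3 * ∑ s ∈ Finset.range n, dev (tplaq U (p s).1 (p s).2.1 (p s).2.2) ^ 4 := by
    intro U
    have h1 : dev (VV U (x, i)) ^ 4 ≤
        (∑ s ∈ Finset.range n, dev (tplaq U (p s).1 (p s).2.1 (p s).2.2)) ^ 4 :=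
      pow_le_pow_left₀ (dev_nonneg _) (hp2 U) 4
    refine h1.trans ?_
    have h2 := pow_sum_le_card_mul_sum_pow (s := Finset.range n)
      (f := fun s => dev (tplaq U (p s).1 (p s).2.1 (p s).2.2)) (fun s _ => dev_nonneg _) 3
    rw [Finset.card_range] at h2
    exact h2
  calc ∫ U, dev (VV U (x, i)) ^ 4 ∂(tmu G β L)
      ≤ ∫ U, (n : ℝ) ^ 3 * ∑ s ∈ Finset.range n,
          dev (tplaq U (p s).1 (p s).2.1 (p s).2.2) ^ 4 ∂(tmu G β L) := by
        refine integral_mono_of_nonneg (Filter.Eventually.of_forall fun U =>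
          pow_nonneg (dev_nonneg _) 4) ?_ (Filter.Eventually.of_forall hpt)
        exact integrable_tmu β (by fun_prop)
    _ = (n : ℝ) ^ 3 * ∑ s ∈ Finset.range n,
          ∫ U, dev (tplaq U (p s).1 (p s).2.1 (p s).2.2) ^ 4 ∂(tmu G β L) := by
        rw [integral_const_mul, integral_finsetSum]
        intro s _
        exact integrable_tmu β (by fun_prop)
    _ ≤ (n : ℝ) ^ 3 * ∑ s ∈ Finset.range n, K := by
        refine mul_le_mul_of_nonneg_left (Finset.sum_le_sum fun s _ => ?_) (by positivity)
        exact h _ _ _ (hp1 s)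
    _ = (n : ℝ) ^ 4 * K := by
        rw [Finset.sum_const, Finset.card_range, nsmul_eq_mul]
        ring
    _ ≤ (3 * ρ) ^ 4 * K := by
        refine mul_le_mul_of_nonneg_right ?_ hK
        refine pow_le_pow_left₀ (by positivity) ?_ 4
        exact_mod_cast hn3

end Frames

end Pool.Agent.Helper82.YM
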