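import Pool.Agent.Helper84.Strong

/-!
From the set based statements to the inequality for `Ind`.
-/

open Set Topology

universe u v w

namespace Pool.Agent.Helper84.IndDim

variable {X : Type u} {Y : Type v} [TopologicalSpace X] [TopologicalSpace Y]

theorem t4_left (hXY : T4Space (X × Y)) (hY : Nonempty Y) (hX : Nonempty X) : T4Space X := by
  obtain ⟨y⟩ := hY
  obtain ⟨x0⟩ := hX
  have e2 : IsEmbedding (fun b : Y => (x0, b)) := isEmbedding_prodMkRight x0
  have : T1Space Y := e2.t1Space
  have e1 : IsEmbedding (fun a : X => (a, y)) := isEmbedding_prodMkLeft y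
  have : T1Space X := e1.t1Space
  have hc : IsClosedEmbedding (fun a : X => (a, y)) := by
    refine ⟨e1, ?_⟩
    have : range (fun a : X => (a, y)) = univ ×ˢ {y} := by
      ext ⟨a, b⟩
      simp [eq_comm]
    rw [this]
    exact isClosed_univ.prod isClosed_singleton
  have : NormalSpace X := hc.normalSpace
  exact ⟨⟩

theorem t4_right (hXY : T4Space (X × Y)) (hY : Nonempty Y) (hX : Nonempty X) : T4Space Y := by
  obtain ⟨y⟩ := hY
  obtain ⟨x⟩ := hX
  have e2 : IsEmbedding (fun b : Y => (x, b)) := isEmbedding_prodMkRight x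
  have : T1Space Y := e2.t1Space
  have e1 : IsEmbedding (fun a : X => (a, y)) := isEmbedding_prodMkLeft y
  have : T1Space X := e1.t1Space
  have hc : IsClosedEmbedding (fun b : Y => (x, b)) := by
    refine ⟨e2, ?_⟩
    have : range (fun b : Y => (x, b)) = {x} ×ˢ univ := by
      ext ⟨a, b⟩
      simp [eq_comm]
    rw [this]
    exact isClosed_singleton.prod isClosed_univ
  have : NormalSpace Y := hc.normalSpace
  exact ⟨⟩

theorem ind_of_isEmpty (Z : Type u) [TopologicalSpace Z] [h : IsEmpty Z] :
    Ind Z = ((-1 : ℤ) : WithTop ℤ) := by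
  classical
  have hex : ∃ n : ℕ, IndLT n Z := ⟨0, h⟩
  unfold Ind
  rw [dif_pos hex]
  have : Nat.find hex = 0 := by
    rw [Nat.find_eq_zero]
    exact h
  rw [this]
  rfl

theorem ind_nonneg (Z : Type u) [TopologicalSpace Z] [hne : Nonempty Z] :
    ((0 : ℤ) : WithTop ℤ) ≤ Ind Z := by
  rcases ind_eq_top_or Z with h | ⟨n, hn, h⟩
  · rw [h]; exact le_top
  · rw [h, WithTop.coe_le_coe]
    have : n ≠ 0 := by
      rintro rfl
      exact (not_isEmpty_iff.mpr hne) hn
    omega

/-- Reduction of the product inequality to finite dimensional non-empty factors. -/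
theorem ind_prod_le (hne : Nonempty X ∨ Nonempty Y)
    (core : ∀ m n : ℕ, Nonempty X → Nonempty Y → IndLT (m + 1) X → IndLT (n + 1) Y →
      IndLT (m + n + 1) (X × Y)) :
    Ind (X × Y) ≤ Ind X + Ind Y := by
  rcases isEmpty_or_nonempty X with hX | hX
  · have hY : Nonempty Y := by
      rcases hne with h | h
      · exact absurd h (not_nonempty_iff.mpr hX)
      · exact h
    have : IsEmpty (X × Y) := inferInstance
    rw [ind_of_isEmpty (X × Y), ind_of_isEmpty X]
    rcases ind_eq_top_or Y with h | ⟨n, hn, h⟩
    · rw [h]; simp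
    · have h0 := ind_nonneg Y
      rw [h] at h0 ⊢
      rw [WithTop.coe_le_coe] at h0
      rw [← WithTop.coe_add, WithTop.coe_le_coe]
      omega
  · rcases isEmpty_or_nonempty Y with hY | hY
    · have : IsEmpty (X × Y) := inferInstance
      rw [ind_of_isEmpty (X × Y), ind_of_isEmpty Y]
      rcases ind_eq_top_or X with h | ⟨n, hn, h⟩
      · rw [h]; simp
      · have h0 := ind_nonneg X
        rw [h] at h0 ⊢
        rw [WithTop.coe_le_coe] at h0
        rw [← WithTop.coe_add, WithTop.coe_le_coe]
        omega
    · rcases ind_eq_top_or X with h | ⟨m, hm, h⟩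
      · rw [h]; simp
      · rcases ind_eq_top_or Y with h' | ⟨n, hn, h'⟩
        · rw [h']; simp
        · have hm0 : m ≠ 0 := by
            rintro rfl
            exact (not_isEmpty_iff.mpr hX) hm
          have hn0 : n ≠ 0 := by
            rintro rfl
            exact (not_isEmpty_iff.mpr hY) hn
          obtain ⟨m, rfl⟩ := Nat.exists_eq_succ_of_ne_zero hm0
          obtain ⟨n, rfl⟩ := Nat.exists_eq_succ_of_ne_zero hn0
          have := core m n hX hY hm hn
          rw [← ind_le_iff] at this
          rw [h, h', ← WithTop.coe_add]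
          refine this.trans ?_
          rw [WithTop.coe_le_coe]
          push_cast
          omega

theorem small_univ {m n : ℕ} (hm : IndLT (m + 1) X) (hn : IndLT (n + 1) Y)
    (T : Set (X × Y)) : Small (m + n + 1) T := by
  refine ⟨Chain.step (m + 1) hm, Chain.step (n + 1) hn, ?_⟩
  intro p _
  refine ⟨m + 1, n + 1, by omega, ?_, ?_⟩
  · simp [Chain.step]
  · simp [Chain.step]

/-- The product inequality when the product is strongly paracompact. -/
theorem ind_prod_le_of_strong (hne : Nonempty X ∨ Nonempty Y) (hXY : T4Space (X × Y))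
    (hX : FiniteSumInd X) (hY : FiniteSumInd Y) (hZ : StronglyParacompact (X × Y)) :
    Ind (X × Y) ≤ Ind X + Ind Y := by
  refine ind_prod_le hne ?_
  intro m n h1 h2 hm hn
  have := t4_left hXY h2 h1
  have := t4_right hXY h2 h1
  rw [← sind_univ_iff]
  refine strong_core hX hY hZ (m + n + 1) univ isClosed_univ ?_
  intro z
  exact ⟨univ, isOpen_univ, mem_univ z, small_univ hm hn _⟩

end Pool.Agent.Helper84.IndDim
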