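import Pool.Agent.Helper84.Final

/-!
Tame sets and gluing of partitions over locally finite families.
-/

open Set Topology

universe u v w

namespace Pool.Agent.Helper84.IndDim

/-- General gluing lemma for partitions over a locally finite family. -/
theorem glue {Z : Type u} [TopologicalSpace Z] {ι : Type v} (F P Q : Set Z)
    (R N M G H : ι → Set Z) (hRf : LocallyFinite R)
    (hN : ∀ i, IsOpen (N i)) (hM : ∀ i, IsOpen (M i)) (hG : ∀ i, IsOpen (G i))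
    (hH : ∀ i, IsOpen (H i)) (hRM : ∀ i, (R i)ᶜ ⊆ M i)
    (hNM : ∀ i, F ∩ N i ∩ M i = ∅) (hGH : ∀ i, F ∩ R i ∩ G i ∩ H i = ∅)
    (hcov : F ⊆ ⋃ i, N i) (hP : ∀ i, F ∩ R i ∩ P ⊆ G i) (hQ : ∀ i, F ∩ R i ∩ Q ⊆ H i) :
    ∃ G' H' : Set Z, IsOpen G' ∧ IsOpen H' ∧ F ∩ G' ∩ H' = ∅ ∧ F ∩ P ⊆ G' ∧ F ∩ Q ⊆ H' ∧
      F \ (G' ∪ H') ⊆ ⋃ i, (R i ∩ ((F \ (N i ∪ M i)) ∪ (F ∩ R i) \ (G i ∪ H i))) := by
  have hNR : ∀ i z, z ∈ F → z ∈ N i → z ∈ R i := by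
    intro i z hz hzN
    by_contra h
    have : z ∈ F ∩ N i ∩ M i := ⟨⟨hz, hzN⟩, hRM i h⟩
    rw [hNM] at this
    exact this
  have hcl : IsClosed (⋃ i, (M i ∪ H i)ᶜ) := by
    apply LocallyFinite.isClosed_iUnion
    · refine hRf.subset fun i z hz => ?_
      by_contra h
      exact hz (Or.inl (hRM i h))
    · exact fun i => ((hM i).union (hH i)).isClosed_compl
  refine ⟨⋃ i, (G i ∩ N i), (⋃ i, (M i ∪ H i)ᶜ)ᶜ,
    isOpen_iUnion fun i => (hG i).inter (hN i), hcl.isOpen_compl, ?_, ?_, ?_, ?_⟩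
  · rw [← subset_empty_iff]
    rintro z ⟨⟨hz, hzG⟩, hzH⟩
    obtain ⟨i, hi, hiN⟩ := mem_iUnion.mp hzG
    have : z ∈ M i ∪ H i := by
      by_contra h
      exact hzH (mem_iUnion.mpr ⟨i, h⟩)
    rcases this with h | h
    · have : z ∈ F ∩ N i ∩ M i := ⟨⟨hz, hiN⟩, h⟩
      rw [hNM] at this
      exact this
    · have : z ∈ F ∩ R i ∩ G i ∩ H i := ⟨⟨⟨hz, hNR i z hz hiN⟩, hi⟩, h⟩
      rw [hGH] at this
      exact this
  · rintro z ⟨hz, hzP⟩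
    obtain ⟨i, hi⟩ := mem_iUnion.mp (hcov hz)
    exact mem_iUnion.mpr ⟨i, hP i ⟨⟨hz, hNR i z hz hi⟩, hzP⟩, hi⟩
  · rintro z ⟨hz, hzQ⟩ hz'
    obtain ⟨i, hi⟩ := mem_iUnion.mp hz'
    by_cases hzR : z ∈ R i
    · exact hi (Or.inr (hQ i ⟨⟨hz, hzR⟩, hzQ⟩))
    · exact hi (Or.inl (hRM i hzR))
  · rintro z ⟨hz, hzGH⟩
    have hzG : z ∉ ⋃ i, (G i ∩ N i) := fun h => hzGH (Or.inl h)
    have hzH : z ∈ ⋃ i, (M i ∪ H i)ᶜ := by
      by_contra h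
      exact hzGH (Or.inr h)
    obtain ⟨i, hi⟩ := mem_iUnion.mp hzH
    have hiM : z ∉ M i := fun h => hi (Or.inl h)
    have hiH : z ∉ H i := fun h => hi (Or.inr h)
    have hiR : z ∈ R i := by
      by_contra h
      exact hiM (hRM i h)
    refine mem_iUnion.mpr ⟨i, hiR, ?_⟩
    by_cases hzN : z ∈ N i
    · right
      refine ⟨⟨hz, hiR⟩, ?_⟩
      rintro (h | h)
      · exact hzG (mem_iUnion.mpr ⟨i, h, hzN⟩)
      · exact hiH h
    · left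
      refine ⟨hz, ?_⟩
      rintro (h | h)
      · exact hzN h
      · exact hiM h

variable {X : Type u} {Y : Type v} [TopologicalSpace X] [TopologicalSpace Y]

/-- `T` is small over `O`, locally in a metric quotient of `Y`. -/
def TameOn (K : ℕ) (O : Set X) (T : Set (X × Y)) : Prop :=
  ∃ (M : Type u) (_ : MetricSpace M) (g : Y → M), Continuous g ∧
    ∀ y, ∃ B : Set M, IsOpen B ∧ g y ∈ B ∧ Small K (T ∩ O ×ˢ (g ⁻¹' B))

/-- `T` is tame: locally over `X` it is small locally in a metric quotient of `Y`. -/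
def Tame (K : ℕ) (T : Set (X × Y)) : Prop :=
  ∀ x : X, ∃ O : Set X, IsOpen O ∧ x ∈ O ∧ TameOn K O T

theorem TameOn.mono {K : ℕ} {O O' : Set X} {T T' : Set (X × Y)} (h : TameOn K O T)
    (hO : O' ⊆ O) (hT : T' ⊆ T) : TameOn K O' T' := by
  obtain ⟨M, hM, g, hg, hs⟩ := h
  refine ⟨M, hM, g, hg, fun y => ?_⟩
  obtain ⟨B, hB, hy, hSm⟩ := hs y
  exact ⟨B, hB, hy, hSm.mono (inter_subset_inter hT (prod_mono hO subset_rfl))⟩

theorem TameOn.empty (K : ℕ) (O : Set X) : TameOn K O (∅ : Set (X × Y)) :=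
  ⟨PUnit, inferInstance, fun _ => PUnit.unit, continuous_const, fun _ =>
    ⟨univ, isOpen_univ, trivial, by simpa using Small.empty K⟩⟩

theorem TameOn.union (hX : FiniteSumInd X) (hY : FiniteSumInd Y) {K : ℕ} {O O' : Set X}
    {T T' : Set (X × Y)} (h : TameOn K O T) (h' : TameOn K O' T') :
    ∃ (M : Type u) (_ : MetricSpace M) (g : Y → M), Continuous g ∧
      ∀ y, ∃ B : Set M, IsOpen B ∧ g y ∈ B ∧
        Small K ((T ∩ O ×ˢ (g ⁻¹' B)) ∪ (T' ∩ O' ×ˢ (g ⁻¹' B))) := by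
  obtain ⟨M, hM, g, hg, hs⟩ := h
  obtain ⟨M', hM', g', hg', hs'⟩ := h'
  refine ⟨M × M', inferInstance, fun y => (g y, g' y), hg.prodMk hg', fun y => ?_⟩
  obtain ⟨B, hB, hy, hSm⟩ := hs y
  obtain ⟨B', hB', hy', hSm'⟩ := hs' y
  refine ⟨B ×ˢ B', hB.prod hB', ⟨hy, hy'⟩, ?_⟩
  refine (hSm.mono ?_).union hX hY (hSm'.mono ?_)
  · rintro p ⟨hp, hpO, hpB⟩
    exact ⟨hp, hpO, hpB.1⟩
  · rintro p ⟨hp, hpO, hpB⟩
    exact ⟨hp, hpO, hpB.2⟩

theorem TameOn.union_set (hX : FiniteSumInd X) (hY : FiniteSumInd Y) {K : ℕ} {O : Set X}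
    {T T' : Set (X × Y)} (h : TameOn K O T) (h' : TameOn K O T') : TameOn K O (T ∪ T') := by
  obtain ⟨M, hM, g, hg, hs⟩ := h.union hX hY h'
  refine ⟨M, hM, g, hg, fun y => ?_⟩
  obtain ⟨B, hB, hy, hSm⟩ := hs y
  refine ⟨B, hB, hy, hSm.mono ?_⟩
  rintro p ⟨hp | hp, hpB⟩
  · exact Or.inl ⟨hp, hpB⟩
  · exact Or.inr ⟨hp, hpB⟩

theorem TameOn.union_base (hX : FiniteSumInd X) (hY : FiniteSumInd Y) {K : ℕ} {O O' : Set X}
    {T : Set (X × Y)} (h : TameOn K O T) (h' : TameOn K O' T) : TameOn K (O ∪ O') T := by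
  obtain ⟨M, hM, g, hg, hs⟩ := h.union hX hY h'
  refine ⟨M, hM, g, hg, fun y => ?_⟩
  obtain ⟨B, hB, hy, hSm⟩ := hs y
  refine ⟨B, hB, hy, hSm.mono ?_⟩
  rintro p ⟨hp, hpO | hpO, hpB⟩
  · exact Or.inl ⟨hp, hpO, hpB⟩
  · exact Or.inr ⟨hp, hpO, hpB⟩

theorem TameOn.biUnion_finite (hX : FiniteSumInd X) (hY : FiniteSumInd Y) {K : ℕ} {ι : Type*}
    {s : Set ι} (hs : s.Finite) {O : Set X} {T : ι → Set (X × Y)}
    (h : ∀ i ∈ s, TameOn K O (T i)) : TameOn K O (⋃ i ∈ s, T i) := by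
  induction s, hs using Set.Finite.induction_on with
  | empty => simpa using TameOn.empty K O
  | @insert a s _ _ ih =>
    rw [biUnion_insert]
    exact (h a (mem_insert _ _)).union_set hX hY (ih fun i hi => h i (mem_insert_of_mem _ hi))

theorem Tame.mono {K : ℕ} {T T' : Set (X × Y)} (h : Tame K T) (hT : T' ⊆ T) : Tame K T' := by
  intro x
  obtain ⟨O, hO, hx, hs⟩ := h x
  exact ⟨O, hO, hx, hs.mono subset_rfl hT⟩

theorem Tame.union (hX : FiniteSumInd X) (hY : FiniteSumInd Y) {K : ℕ}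
    {T T' : Set (X × Y)} (h : Tame K T) (h' : Tame K T') : Tame K (T ∪ T') := by
  intro x
  obtain ⟨O, hO, hx, hs⟩ := h x
  obtain ⟨O', hO', hx', hs'⟩ := h' x
  exact ⟨O ∩ O', hO.inter hO', ⟨hx, hx'⟩,
    (hs.mono inter_subset_left subset_rfl).union_set hX hY
      (hs'.mono inter_subset_right subset_rfl)⟩

theorem Tame.eq_empty {T : Set (X × Y)} (h : Tame 0 T) : T = ∅ := by
  rw [← subset_empty_iff]
  rintro ⟨x, y⟩ hp
  obtain ⟨O, _, hx, M, hM, g, _, hs⟩ := h x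
  obtain ⟨B, _, hy, hSm⟩ := hs y
  have : ((x, y) : X × Y) ∈ T ∩ O ×ˢ (g ⁻¹' B) := ⟨hp, hx, hy⟩
  rw [hSm.eq_empty] at this
  exact this

/-- A tame set is tame over a neighbourhood of any compact set. -/
theorem Tame.onCompact (hX : FiniteSumInd X) (hY : FiniteSumInd Y) {K : ℕ}
    {T : Set (X × Y)} (h : Tame K T) {C : Set X} (hC : IsCompact C) :
    ∃ O : Set X, IsOpen O ∧ C ⊆ O ∧ TameOn K O T := by
  refine hC.induction_on (p := fun C => ∃ O : Set X, IsOpen O ∧ C ⊆ O ∧ TameOn K O T)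
    ?_ ?_ ?_ ?_
  · refine ⟨∅, isOpen_empty, subset_rfl, PUnit, inferInstance, fun _ => PUnit.unit,
      continuous_const, fun _ => ⟨univ, isOpen_univ, trivial, by simpa using Small.empty K⟩⟩
  · rintro s t hst ⟨O, hO, htO, hs⟩
    exact ⟨O, hO, hst.trans htO, hs⟩
  · rintro s t ⟨O, hO, htO, h1⟩ ⟨O', hO', htO', h2⟩
    exact ⟨O ∪ O', hO.union hO', union_subset_union htO htO', h1.union_base hX hY h2⟩
  · intro x hx
    obtain ⟨O, hO, hxO, h1⟩ := h x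
    exact ⟨O, mem_nhdsWithin_of_mem_nhds (hO.mem_nhds hxO), O, hO, subset_rfl, h1⟩

/-- A union of tame pieces over a locally finite family in `X` is tame. -/
theorem Tame.of_locallyFinite (hX : FiniteSumInd X) (hY : FiniteSumInd Y) {K : ℕ} {ι : Type w}
    {R : ι → Set X} (hR : LocallyFinite R) {T : ι → Set (X × Y)}
    (hT : ∀ i, TameOn K univ (T i)) (hTR : ∀ i, T i ⊆ R i ×ˢ univ) : Tame K (⋃ i, T i) := by
  intro x
  obtain ⟨t, ht, hf⟩ := hR x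
  obtain ⟨O, hOt, hO, hxO⟩ := mem_nhds_iff.mp ht
  refine ⟨O, hO, hxO, ?_⟩
  obtain ⟨M, hM, g, hg, hs⟩ := TameOn.biUnion_finite hX hY hf (O := univ) (T := T)
    (fun i _ => hT i)
  refine ⟨M, hM, g, hg, fun y => ?_⟩
  obtain ⟨B, hB, hy, hSm⟩ := hs y
  refine ⟨B, hB, hy, hSm.mono ?_⟩
  rintro p ⟨hp, hpO, hpB⟩
  obtain ⟨i, hi⟩ := mem_iUnion.mp hp
  refine ⟨mem_biUnion (show i ∈ {i | (R i ∩ t).Nonempty} from ⟨p.1, (hTR i hi).1, hOt hpO⟩) hi,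
    mem_univ _, hpB⟩

end Pool.Agent.Helper84.IndDim
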