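import Mathlib

set_option autoImplicit false
open Matrix

namespace Pool.Agent.Helper84.HornCP

/-- The Horn form in five variables. -/
def h (a b c d e : ℝ) : ℝ :=
  a^2 + b^2 + c^2 + d^2 + e^2 - 2*a*b - 2*b*c - 2*c*d - 2*d*e - 2*e*a
    + 2*a*c + 2*b*d + 2*c*e + 2*d*a + 2*e*b

lemma h_id1 (a b c d e : ℝ) : h a b c d e = (a - b + c + d - e)^2 + 4*b*d + 4*c*(e-d) := by
  unfold h; ring

lemma h_id2 (a b c d e : ℝ) : h a b c d e = (a - b + c - d + e)^2 + 4*b*e + 4*a*(d-e) := by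
  unfold h; ring

lemma h_nonneg {a b c d e : ℝ} (ha : 0 ≤ a) (hb : 0 ≤ b) (hc : 0 ≤ c) (hd : 0 ≤ d) (he : 0 ≤ e) :
    0 ≤ h a b c d e := by
  rcases le_total d e with hde | hde
  · rw [h_id1]
    have := mul_nonneg hb hd
    have := mul_nonneg hc (sub_nonneg.2 hde)
    nlinarith [sq_nonneg (a - b + c + d - e)]
  · rw [h_id2]
    have := mul_nonneg hb he
    have := mul_nonneg ha (sub_nonneg.2 hde)
    nlinarith [sq_nonneg (a - b + c - d + e)]

lemma h_zero {a b c d e : ℝ} (ha : 0 < a) (hb : 0 ≤ b) (hc : 0 < c) (hd : 0 ≤ d) (he : 0 ≤ e)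
    (h0 : h a b c d e = 0) : d = 0 ∧ e = 0 ∧ b = a + c := by
  have hde : d = e := by
    rcases le_total d e with hde | hde
    · rw [h_id1] at h0
      have h1 := mul_nonneg hb hd
      have h2 := mul_nonneg hc.le (sub_nonneg.2 hde)
      have h3 : c * (e - d) = 0 := by nlinarith [sq_nonneg (a - b + c + d - e)]
      rcases mul_eq_zero.1 h3 with h4 | h4
      · linarith
      · linarith
    · rw [h_id2] at h0
      have h1 := mul_nonneg hb he
      have h2 := mul_nonneg ha.le (sub_nonneg.2 hde)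
      have h3 : a * (d - e) = 0 := by nlinarith [sq_nonneg (a - b + c - d + e)]
      rcases mul_eq_zero.1 h3 with h4 | h4
      · linarith
      · linarith
  subst hde
  rw [h_id1] at h0
  have h1 := mul_nonneg hb hd
  have h2 : (a - b + c + d - d)^2 = 0 := by nlinarith [sq_nonneg (a - b + c + d - d)]
  have h3 : a - b + c + d - d = 0 := by simpa using h2
  have h4 : b * d = 0 := by nlinarith
  have hb' : b = a + c := by linarith
  have hbpos : b ≠ 0 := by rw [hb']; positivity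
  have hd0 : d = 0 := by
    rcases mul_eq_zero.1 h4 with h5 | h5
    · exact absurd h5 hbpos
    · exact h5
  exact ⟨hd0, hd0, hb'⟩

/-- The Horn form of a vector. -/
def hf (x : Fin 5 → ℝ) : ℝ := h (x 0) (x 1) (x 2) (x 3) (x 4)

lemma hf_rot (x : Fin 5 → ℝ) (j : Fin 5) :
    hf x = h (x j) (x (j+1)) (x (j+2)) (x (j+3)) (x (j+4)) := by
  fin_cases j
  · simp [hf]
  · show h (x 0) (x 1) (x 2) (x 3) (x 4) = h (x 1) (x 2) (x 3) (x 4) (x 0)
    unfold h; ring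
  · show h (x 0) (x 1) (x 2) (x 3) (x 4) = h (x 2) (x 3) (x 4) (x 0) (x 1)
    unfold h; ring
  · show h (x 0) (x 1) (x 2) (x 3) (x 4) = h (x 3) (x 4) (x 0) (x 1) (x 2)
    unfold h; ring
  · show h (x 0) (x 1) (x 2) (x 3) (x 4) = h (x 4) (x 0) (x 1) (x 2) (x 3)
    unfold h; ring

/-- The pairing of a matrix with the Horn matrix. -/
def hp (S : Matrix (Fin 5) (Fin 5) ℝ) : ℝ :=
  S 0 0 + S 1 1 + S 2 2 + S 3 3 + S 4 4
    - 2 * S 0 1 - 2 * S 1 2 - 2 * S 2 3 - 2 * S 3 4 - 2 * S 4 0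
    + 2 * S 0 2 + 2 * S 1 3 + 2 * S 2 4 + 2 * S 3 0 + 2 * S 4 1

lemma hp_mul {m : ℕ} (C : Matrix (Fin 5) (Fin m) ℝ) :
    hp (C * Cᵀ) = ∑ k, hf (fun i => C i k) := by
  simp only [hp, Matrix.mul_apply, Matrix.transpose_apply, hf, h, Finset.mul_sum,
    ← Finset.sum_add_distrib, ← Finset.sum_sub_distrib]
  refine Finset.sum_congr rfl fun k _ => ?_
  ring

lemma hf_nonneg {x : Fin 5 → ℝ} (hx : ∀ i, 0 ≤ x i) : 0 ≤ hf x :=
  h_nonneg (hx _) (hx _) (hx _) (hx _) (hx _)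

/-- The matrix of the counterexample. -/
def A : Matrix (Fin 5) (Fin 5) ℝ :=
  !![8, 5, 1, 1, 5; 5, 8, 5, 1, 1; 1, 5, 8, 5, 1; 1, 1, 5, 8, 5; 5, 1, 1, 5, 8]

/-- A square factorisation. -/
noncomputable def B : Matrix (Fin 5) (Fin 5) ℝ :=
  let s : ℝ := (1 + √5)/2
  let t : ℝ := (√5 - 1)/2
  !![s, 0, 0, t, √5; √5, s, 0, 0, t; t, √5, s, 0, 0; 0, t, √5, s, 0; 0, 0, t, √5, s]

lemma hp_A : hp A = 0 := by
  simp [hp, A]; norm_num

lemma sqrt5 : (√5 : ℝ) * √5 = 5 := Real.mul_self_sqrt (by norm_num)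

lemma one_le_sqrt5 : (1 : ℝ) ≤ √5 := by
  rw [Real.one_le_sqrt]; norm_num

lemma B_nonneg : ∀ i j, 0 ≤ B i j := by
  have h1 := one_le_sqrt5
  have h2 : (0 : ℝ) ≤ (1 + √5)/2 := by linarith
  have h3 : (0 : ℝ) ≤ (√5 - 1)/2 := by linarith
  have h4 : (0 : ℝ) ≤ √5 := by linarith
  intro i j
  fin_cases i <;> fin_cases j <;> simp [B, h2, h3]

lemma A_eq : A = B * Bᵀ := by
  have h5 := sqrt5
  ext i j
  fin_cases i <;> fin_cases j <;>
    simp [A, B, Matrix.mul_apply, Fin.sum_univ_five] <;> nlinarith [h5]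

lemma A_rat : ∀ i j, ∃ q : ℚ, A i j = (q : ℝ) := by
  intro i j
  refine ⟨(!![8, 5, 1, 1, 5; 5, 8, 5, 1, 1; 1, 5, 8, 5, 1; 1, 1, 5, 8, 5; 5, 1, 1, 5, 8] :
    Matrix (Fin 5) (Fin 5) ℚ) i j, ?_⟩
  fin_cases i <;> fin_cases j <;> simp [A]

lemma A_ge_one : ∀ i j, 1 ≤ A i j := by
  intro i j
  fin_cases i <;> fin_cases j <;> simp [A]

lemma A_pos : ∀ i j, 0 < A i j := fun i j => lt_of_lt_of_le one_pos (A_ge_one i j)

/-- Quadratic form of `A`, bounded below. -/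
lemma A_quad (x : Fin 5 → ℝ) :
    (1/2 : ℝ) * ∑ i, x i ^ 2 ≤ ∑ i, ∑ j, x i * A i j * x j := by
  have key : ∑ i, ∑ j, x i * A i j * x j = (1/2 : ℝ) * ∑ i, x i ^ 2
      + (15/2 * (x 0 + 2/3 * x 1 + 2/15 * x 2 + 2/15 * x 3 + 2/3 * x 4)^2
        + 25/6 * (x 1 + 26/25 * x 2 + 2/25 * x 3 - 14/25 * x 4)^2
        + 143/50 * (x 2 + 226/143 * x 3 + 138/143 * x 4)^2
        + 281/1430 * (x 3 + 226/281 * x 4)^2 + 39/562 * (x 4)^2) := by
    simp [A, Fin.sum_univ_five]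
    ring
  rw [key]
  have : 0 ≤ (15/2 * (x 0 + 2/3 * x 1 + 2/15 * x 2 + 2/15 * x 3 + 2/3 * x 4)^2
        + 25/6 * (x 1 + 26/25 * x 2 + 2/25 * x 3 - 14/25 * x 4)^2
        + 143/50 * (x 2 + 226/143 * x 3 + 138/143 * x 4)^2
        + 281/1430 * (x 3 + 226/281 * x 4)^2 + 39/562 * (x 4)^2) := by positivity
  linarith

lemma dot_eq (S : Matrix (Fin 5) (Fin 5) ℝ) (x : Fin 5 → ℝ) :
    star x ⬝ᵥ (S *ᵥ x) = ∑ i, ∑ j, x i * S i j * x j := by
  simp only [dotProduct, mulVec, Pi.star_apply, star_trivial, Finset.mul_sum, mul_assoc]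

lemma A_symm : Aᵀ = A := by
  ext i j
  fin_cases i <;> fin_cases j <;> rfl

lemma A_posDef : A.PosDef := by
  refine Matrix.PosDef.of_dotProduct_mulVec_pos ?_ ?_
  · show Aᴴ = A
    rw [conjTranspose_eq_transpose_of_trivial, A_symm]
  · intro x hx
    rw [dot_eq]
    refine lt_of_lt_of_le ?_ (A_quad x)
    have : ∃ i, x i ≠ 0 := Function.ne_iff.1 hx
    obtain ⟨i, hi⟩ := this
    have h1 : x i ^ 2 ≤ ∑ i, x i ^ 2 :=
      Finset.single_le_sum (f := fun i => x i ^ 2) (fun j _ => sq_nonneg _) (Finset.mem_univ i)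
    have h2 : 0 < x i ^ 2 := by positivity
    linarith

/-- `A - δ I` is not completely positive. -/
lemma not_cp {δ : ℝ} (hδ : 0 < δ) {m : ℕ} {C : Matrix (Fin 5) (Fin m) ℝ}
    (hC : ∀ i j, 0 ≤ C i j) : A - δ • (1 : Matrix (Fin 5) (Fin 5) ℝ) ≠ C * Cᵀ := by
  intro hS
  have h1 : hp (A - δ • (1 : Matrix (Fin 5) (Fin 5) ℝ)) = hp A - 5 * δ := by
    simp [hp]; ring
  rw [hS, hp_A, hp_mul] at h1
  have h2 : 0 ≤ ∑ k, hf (fun i => C i k) :=
    Finset.sum_nonneg fun k _ => hf_nonneg fun i => hC i k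
  linarith

lemma near {S : Matrix (Fin 5) (Fin 5) ℝ} (hS : Sᵀ = S)
    (h : ∀ i j, |S i j - A i j| < 1/10) : S.PosSemidef ∧ ∀ i j, 0 ≤ S i j := by
  constructor
  · refine Matrix.PosSemidef.of_dotProduct_mulVec_nonneg ?_ ?_
    · show Sᴴ = S
      rw [conjTranspose_eq_transpose_of_trivial, hS]
    · intro x
      rw [dot_eq]
      have h1 := A_quad x
      have h2 : ∑ i, ∑ j, (-(1/20 : ℝ) * (x i ^ 2 + x j ^ 2)) ≤
          ∑ i, ∑ j, (x i * S i j * x j - x i * A i j * x j) := by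
        refine Finset.sum_le_sum fun i _ => Finset.sum_le_sum fun j _ => ?_
        have h3 := abs_lt.1 (h i j)
        have h4 : x i * S i j * x j - x i * A i j * x j = (S i j - A i j) * (x i * x j) := by ring
        rw [h4]
        have h5 : |(S i j - A i j) * (x i * x j)| ≤ (1/10) * ((x i ^ 2 + x j ^ 2)/2) := by
          rw [abs_mul]
          refine mul_le_mul (h i j).le ?_ (abs_nonneg _) (by norm_num)
          rw [abs_le]
          constructor <;> nlinarith [sq_nonneg (x i + x j), sq_nonneg (x i - x j)]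
        have := (abs_le.1 h5).1
        linarith
      have h3 : ∑ i, ∑ j, (-(1/20 : ℝ) * (x i ^ 2 + x j ^ 2)) = -(1/2) * ∑ i, x i ^ 2 := by
        simp [Fin.sum_univ_five]; ring
      rw [h3] at h2
      simp only [Finset.sum_sub_distrib] at h2
      linarith
  · intro i j
    have h3 := abs_lt.1 (h i j)
    have := A_ge_one i j
    linarith

lemma fin_case : ∀ i j : Fin 5, ¬ i = j → j = i + 1 ∨ j = i + 2 ∨ j = i + 3 ∨ j = i + 4 := by
  decide

lemma fin12 : ∀ i : Fin 5, i + 1 + 2 = i + 3 := by decide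
lemma fin22 : ∀ i : Fin 5, i + 2 + 2 = i + 4 := by decide
lemma fin24 : ∀ i : Fin 5, i + 2 + 4 = i + 1 := by decide
lemma fin33 : ∀ i : Fin 5, i + 3 + 3 = i + 1 := by decide
lemma fin43 : ∀ i : Fin 5, i + 4 + 3 = i + 2 := by decide
lemma fin14 : ∀ i : Fin 5, i + 1 + 4 = i := by decide
lemma fin23 : ∀ i : Fin 5, i + 2 + 3 = i := by decide
lemma fin34 : ∀ i : Fin 5, i + 3 + 4 = i + 2 := by decide
lemma fin11111 : ∀ i : Fin 5, i + 1 + 1 + 1 + 1 + 1 = i := by decide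
lemma fin11 : ∀ i : Fin 5, i + 1 + 1 = i + 2 := by decide

lemma sum_rot (f : Fin 5 → ℝ) (j : Fin 5) :
    ∑ i, f i = f j + f (j+1) + f (j+2) + f (j+3) + f (j+4) := by
  rw [← Equiv.sum_comp (Equiv.addLeft j) f]
  simp [Fin.sum_univ_five]

/-- Structure of square factorisations. -/
lemma structure_lemma {B : Matrix (Fin 5) (Fin 5) ℝ} (hB : ∀ i j, 0 ≤ B i j)
    (hA : A = B * Bᵀ) : ∃ K : Fin 5 → Fin 5, Function.Bijective K ∧
      ∀ j, 0 < B j (K j) ∧ 0 < B (j+2) (K j) ∧ B (j+3) (K j) = 0 ∧ B (j+4) (K j) = 0 ∧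
        B (j+1) (K j) = B j (K j) + B (j+2) (K j) := by
  have h0 : ∀ k, hf (fun i => B i k) = 0 := by
    have h1 : ∑ k, hf (fun i => B i k) = 0 := by rw [← hp_mul, ← hA, hp_A]
    intro k
    exact (Finset.sum_eq_zero_iff_of_nonneg
      (fun k _ => hf_nonneg fun i => hB i k)).1 h1 k (Finset.mem_univ k)
  have h1 : ∀ j, ∃ k, 0 < B j k ∧ 0 < B (j+2) k := by
    intro j
    by_contra hcon
    push Not at hcon
    have h2 : A j (j+2) = 0 := by
      rw [hA, Matrix.mul_apply]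
      refine Finset.sum_eq_zero fun k _ => ?_
      rw [transpose_apply]
      rcases (hB j k).lt_or_eq with h3 | h3
      · rw [le_antisymm (hcon k h3) (hB _ _), mul_zero]
      · rw [← h3, zero_mul]
    have := A_pos j (j+2)
    linarith
  choose K hK1 hK2 using h1
  have hK : ∀ j, 0 < B j (K j) ∧ 0 < B (j+2) (K j) ∧ B (j+3) (K j) = 0 ∧ B (j+4) (K j) = 0 ∧
        B (j+1) (K j) = B j (K j) + B (j+2) (K j) := by
    intro j
    have h2 := h0 (K j)
    rw [hf_rot _ j] at h2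
    obtain ⟨h3, h4, h5⟩ := h_zero (hK1 j) (hB _ _) (hK2 j) (hB _ _) (hB _ _) h2
    exact ⟨hK1 j, hK2 j, h3, h4, h5⟩
  refine ⟨K, ?_, hK⟩
  refine Finite.injective_iff_bijective.1 fun i j hij => ?_
  by_contra hne
  obtain ⟨hi1, hi2, hi3, hi4, hi5⟩ := hK i
  obtain ⟨hj1, hj2, hj3, hj4, hj5⟩ := hK j
  rw [hij] at hi1 hi2 hi3 hi4 hi5
  have hcase := fin_case i j hne
  rcases hcase with rfl | rfl | rfl | rfl
  · rw [fin12, hi3] at hj2; exact lt_irrefl _ hj2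
  · rw [fin22, hi4] at hj2; exact lt_irrefl _ hj2
  · rw [hi3] at hj1; exact lt_irrefl _ hj1
  · rw [hi4] at hj1; exact lt_irrefl _ hj1

lemma chain {p0 p1 p2 p3 p4 : ℝ} (h0 : p1 * p0 + 1 = 3 * p0) (h1 : p2 * p1 + 1 = 3 * p1)
    (h2 : p3 * p2 + 1 = 3 * p2) (h3 : p4 * p3 + 1 = 3 * p3) (h4 : p0 * p4 + 1 = 3 * p4) :
    p0^2 - 3 * p0 + 1 = 0 := by
  have e2 : p2 * (3 * p0 - 1) = 8 * p0 - 3 := by linear_combination p0 * h1 + (3 - p2) * h0
  have e3 : p3 * (8 * p0 - 3) = 21 * p0 - 8 := by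
    linear_combination (3 * p0 - 1) * h2 + (3 - p3) * e2
  have e4 : p4 * (21 * p0 - 8) = 55 * p0 - 21 := by
    linear_combination (8 * p0 - 3) * h3 + (3 - p4) * e3
  have e5 : p0 * (55 * p0 - 21) = 144 * p0 - 55 := by
    linear_combination (21 * p0 - 8) * h4 + (3 - p0) * e4
  linarith

lemma irr_of_quad {p : ℝ} (h : p^2 - 3 * p + 1 = 0) : Irrational p := by
  rintro ⟨q, rfl⟩
  have h1 : ((2 * q - 3 : ℚ) : ℝ)^2 = 5 := by push_cast; linarith
  have h2 : (2 * q - 3)^2 = 5 := by exact_mod_cast h1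
  have h3 : Irrational √((5 : ℕ) : ℝ) := Nat.Prime.irrational_sqrt (by norm_num)
  apply h3
  refine ⟨|2 * q - 3|, ?_⟩
  have h4 : (((|2 * q - 3| : ℚ)) : ℝ)^2 = 5 := by
    rw [← Rat.cast_pow, sq_abs, h2]; norm_num
  have h5 : (0 : ℝ) ≤ ((|2 * q - 3| : ℚ) : ℝ) := by exact_mod_cast abs_nonneg _
  rw [← Real.sqrt_sq h5, h4]
  norm_num

lemma A_two : ∀ j : Fin 5, A j (j+2) = 1 := by
  intro j
  fin_cases j <;> rfl

lemma A_one : ∀ j : Fin 5, A (j+1) (j+2) = 5 := by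
  intro j
  fin_cases j <;> rfl

/-- Every column of every square factorisation of `A` has an entry with irrational square. -/
theorem all_irrational {B : Matrix (Fin 5) (Fin 5) ℝ} (hB : ∀ i j, 0 ≤ B i j)
    (hA : A = B * Bᵀ) (k : Fin 5) : ∃ i, Irrational (B i k * B i k) := by
  obtain ⟨K, hKb, hK⟩ := structure_lemma hB hA
  have hst : ∀ j, B j (K j) * B (j+2) (K j) = 1 := by
    intro j
    have h1 : A j (j+2) = ∑ i, B j (K i) * B (j+2) (K i) := by
      rw [hA, Matrix.mul_apply]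
      simp only [transpose_apply]
      exact ((Equiv.ofBijective K hKb).sum_comp (fun k => B j k * B (j+2) k)).symm
    rw [A_two, sum_rot _ j] at h1
    have e1 : B (j+2) (K (j+1)) * B j (K (j+1)) = 0 := by
      have h2 := (hK (j+1)).2.2.2.1
      have h3 := fin14 j
      rw [h3] at h2
      rw [h2, mul_zero]
    have e2 : B j (K (j+2)) = 0 := by
      have h2 := (hK (j+2)).2.2.1
      have h3 := fin23 j
      rwa [h3] at h2
    have e3 : B (j+2) (K (j+3)) = 0 := by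
      have h2 := (hK (j+3)).2.2.2.1
      have h3 := fin34 j
      rwa [h3] at h2
    have e4 : B (j+2) (K (j+4)) = 0 := by
      have h2 := (hK (j+4)).2.2.1
      rwa [fin43] at h2
    rw [e2, e3, e4] at h1
    linarith
  have hrec : ∀ j, (B (j+1) (K (j+1)))^2 * (B j (K j))^2 + 1 = 3 * (B j (K j))^2 := by
    intro j
    have h1 : A (j+1) (j+2) = ∑ i, B (j+1) (K i) * B (j+2) (K i) := by
      rw [hA, Matrix.mul_apply]
      simp only [transpose_apply]
      exact ((Equiv.ofBijective K hKb).sum_comp (fun k => B (j+1) k * B (j+2) k)).symm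
    rw [A_one, sum_rot _ j] at h1
    have e0 := (hK j).2.2.2.2
    have e1 := (hK (j+1)).2.2.2.2
    rw [fin11] at e1
    have e2 : B (j+1) (K (j+2)) = 0 := by
      have h2 := (hK (j+2)).2.2.2.1
      rwa [fin24] at h2
    have e3 : B (j+1) (K (j+3)) = 0 := by
      have h2 := (hK (j+3)).2.2.1
      rwa [fin33] at h2
    have e4 : B (j+2) (K (j+4)) = 0 := by
      have h2 := (hK (j+4)).2.2.1
      rwa [fin43] at h2
    rw [e0, e1, e2, e3, e4] at h1
    have h5 := hst j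
    have h6 := hst (j+1)
    have h7 : (B (j+2) (K j))^2 + (B (j+1) (K (j+1)))^2 = 3 := by
      nlinarith
    have h8 : (B j (K j))^2 * (B (j+2) (K j))^2 = 1 := by
      rw [← mul_pow, h5, one_pow]
    linear_combination (B j (K j))^2 * h7 - h8
  obtain ⟨j, rfl⟩ := hKb.2 k
  refine ⟨j, ?_⟩
  rw [← pow_two]
  apply irr_of_quad
  have r0 := hrec j
  have r1 := hrec (j+1)
  have r2 := hrec (j+1+1)
  have r3 := hrec (j+1+1+1)
  have r4 := hrec (j+1+1+1+1)
  have h5 := fin11111 j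
  rw [h5] at r4
  exact chain r0 r1 r2 r3 r4

end Pool.Agent.Helper84.HornCP
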