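import Mathlib

/-!
# Definitions used in the statements on `Ind (X × Y)`

Large inductive dimension, the finite sum property for `Ind`, sigma-locally compact spaces and
strongly paracompact spaces.
-/

open Set Topology

universe u

namespace Pool.Agent.Helper84.IndDim

/-- `IndLT n X` says that the large inductive dimension of `X` is smaller than `n`,
i.e. `Ind X ≤ n - 1`.  `Ind X ≤ -1` means that `X` is empty, and `Ind X ≤ n` (for `n ≥ 0`) means
that for every closed `A` and every open `U ⊇ A` there is an open `V` with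
`A ⊆ V ⊆ closure V ⊆ U` such that the boundary (`frontier`) of `V`, with the subspace topology,
satisfies `Ind ≤ n - 1`. -/
def IndLT : ℕ → ∀ (X : Type u) [TopologicalSpace X], Prop
  | 0, X, _ => IsEmpty X
  | n + 1, X, _ => ∀ A U : Set X, IsClosed A → IsOpen U → A ⊆ U →
      ∃ V : Set X, IsOpen V ∧ A ⊆ V ∧ closure V ⊆ U ∧ IndLT n ↥(frontier V)

open Classical in
/-- The large inductive dimension `Ind X ∈ {-1, 0, 1, …} ∪ {∞}`, as an element of `WithTop ℤ`
(`⊤` is `∞`): the least integer `k ≥ -1` with `Ind X ≤ k`, and `⊤` if there is none. -/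
noncomputable def Ind (X : Type u) [TopologicalSpace X] : WithTop ℤ :=
  if h : ∃ n : ℕ, IndLT n X then (((Nat.find h : ℤ) - 1 : ℤ) : WithTop ℤ) else ⊤

/-- `X` satisfies the finite sum theorem for `Ind`: for every finite (non-empty) family
`F 0, …, F n` of closed subsets, `Ind (⋃ i, F i) ≤ max_i Ind (F i)`. -/
def FiniteSumInd (X : Type u) [TopologicalSpace X] : Prop :=
  ∀ (n : ℕ) (F : Fin (n + 1) → Set X), (∀ i, IsClosed (F i)) →
    Ind ↥(⋃ i, F i) ≤ Finset.univ.sup' Finset.univ_nonempty (fun i => Ind ↥(F i))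

/-- `X` is sigma-locally compact: it is the union of countably many closed subspaces each of
which is locally compact in the subspace topology. -/
def SigmaLocallyCompact (X : Type u) [TopologicalSpace X] : Prop :=
  ∃ E : ℕ → Set X, (∀ i, IsClosed (E i)) ∧ (∀ i, LocallyCompactSpace ↥(E i)) ∧
    (⋃ i, E i) = Set.univ

/-- `X` is strongly paracompact: every open cover `𝓤` has an open refinement `𝓥` which is again
a cover and is star-finite (each member of `𝓥` meets only finitely many members of `𝓥`). -/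
def StronglyParacompact (X : Type u) [TopologicalSpace X] : Prop :=
  ∀ 𝓤 : Set (Set X), (∀ U ∈ 𝓤, IsOpen U) → ⋃₀ 𝓤 = Set.univ →
    ∃ 𝓥 : Set (Set X), (∀ V ∈ 𝓥, IsOpen V) ∧ ⋃₀ 𝓥 = Set.univ ∧
      (∀ V ∈ 𝓥, ∃ U ∈ 𝓤, V ⊆ U) ∧ (∀ V ∈ 𝓥, {W ∈ 𝓥 | (V ∩ W).Nonempty}.Finite)

end Pool.Agent.Helper84.IndDim
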