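import Pool.Agent.Helper84.IndDefs

/-!
Basic lemmas on the large inductive dimension and partitions along chains of closed sets.
-/

open Set Topology

universe u v w

namespace Pool.Agent.Helper84.IndDim

/-! ### A set based version -/

/-- Set based version of `IndLT`: for a closed set `F` it means `Ind F < n`. -/
def SInd {Z : Type u} [TopologicalSpace Z] : ℕ → Set Z → Prop
  | 0, F => F = ∅
  | n + 1, F => ∀ P Q : Set Z, IsClosed P → IsClosed Q → F ∩ P ∩ Q = ∅ →
      ∃ G H : Set Z, IsOpen G ∧ IsOpen H ∧ F ∩ P ⊆ G ∧ F ∩ Q ⊆ H ∧ F ∩ G ∩ H = ∅ ∧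
        SInd n (F \ (G ∪ H))

section Basic

variable {Z : Type u} [TopologicalSpace Z]

theorem SInd.mono_set : ∀ {n : ℕ} {F F' : Set Z}, SInd n F → IsClosed F' → F' ⊆ F → SInd n F'
  | 0, F, F', h, _, hs => by
      have h' : F = ∅ := h
      subst h'
      exact subset_empty_iff.mp hs
  | n + 1, F, F', h, hc, hs => by
      intro P Q hP hQ hPQ
      obtain ⟨G, H, hG, hH, h1, h2, h3, h4⟩ := h (P ∩ F') (Q ∩ F') (hP.inter hc) (hQ.inter hc) (by
        rw [← subset_empty_iff, ← hPQ]
        rintro x ⟨⟨hx, hxP, hxF⟩, hxQ, -⟩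
        exact ⟨⟨hxF, hxP⟩, hxQ⟩)
      refine ⟨G, H, hG, hH, ?_, ?_, ?_, ?_⟩
      · rintro x ⟨hx, hxP⟩
        exact h1 ⟨hs hx, hxP, hx⟩
      · rintro x ⟨hx, hxQ⟩
        exact h2 ⟨hs hx, hxQ, hx⟩
      · rw [← subset_empty_iff, ← h3]
        rintro x ⟨⟨hx, hxG⟩, hxH⟩
        exact ⟨⟨hs hx, hxG⟩, hxH⟩
      · exact SInd.mono_set h4 (by
          rw [sdiff_eq]
          exact hc.inter (hG.union hH).isClosed_compl) (sdiff_subset_sdiff_left hs)

theorem SInd.succ : ∀ {n : ℕ} {F : Set Z}, SInd n F → SInd (n + 1) F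
  | 0, F, h => by
      have h' : F = ∅ := h
      subst h'
      intro P Q _ _ _
      refine ⟨∅, ∅, isOpen_empty, isOpen_empty, ?_, ?_, ?_, ?_⟩
      · simp
      · simp
      · simp
      · show _ = _
        simp
  | n + 1, F, h => by
      intro P Q hP hQ hPQ
      obtain ⟨G, H, hG, hH, h1, h2, h3, h4⟩ := h P Q hP hQ hPQ
      exact ⟨G, H, hG, hH, h1, h2, h3, SInd.succ h4⟩

theorem SInd.mono {n m : ℕ} (hnm : n ≤ m) {F : Set Z} (h : SInd n F) : SInd m F := by
  induction m, hnm using Nat.le_induction with
  | base => exact h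
  | succ k _ ih => exact ih.succ

/-- The key comparison: for a closed embedding `f`, `Ind X < n` iff `Ind (range f) < n`. -/
theorem sind_range_iff : ∀ (n : ℕ) {X : Type v} [TopologicalSpace X] {f : X → Z},
    IsClosedEmbedding f → (SInd n (range f) ↔ IndLT n X)
  | 0, X, _, f, _ => by
      show range f = ∅ ↔ IsEmpty X
      exact range_eq_empty_iff
  | n + 1, X, _, f, hf => by
      constructor
      · intro h A U hA hU hAU
        obtain ⟨G, H, hG, hH, h1, h2, h3, h4⟩ := h (f '' A) (f '' Uᶜ)
          (hf.isClosedMap _ hA) (hf.isClosedMap _ hU.isClosed_compl) (by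
            rw [← subset_empty_iff]
            rintro _ ⟨⟨-, a, ha, rfl⟩, b, hb, hab⟩
            have := hf.injective hab
            subst this
            exact hb (hAU ha))
        have hHo : IsClosed (f ⁻¹' H)ᶜ := (hH.preimage hf.continuous).isClosed_compl
        have hcl : closure (f ⁻¹' G) ⊆ (f ⁻¹' H)ᶜ := by
          refine closure_minimal ?_ hHo
          intro x hxG hxH
          have : f x ∈ range f ∩ G ∩ H := ⟨⟨mem_range_self x, hxG⟩, hxH⟩
          rw [h3] at this
          exact this
        refine ⟨f ⁻¹' G, hG.preimage hf.continuous, ?_, ?_, ?_⟩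
        · intro x hx
          exact h1 ⟨mem_range_self x, mem_image_of_mem f hx⟩
        · intro x hx
          by_contra hxU
          exact hcl hx (h2 ⟨mem_range_self x, mem_image_of_mem f hxU⟩)
        · have hfr : IsClosedEmbedding (fun x : ↥(frontier (f ⁻¹' G)) => f x) :=
            hf.comp isClosed_frontier.isClosedEmbedding_subtypeVal
          rw [← sind_range_iff n hfr]
          refine h4.mono_set hfr.isClosed_range ?_
          rintro _ ⟨⟨x, hx⟩, rfl⟩
          refine ⟨mem_range_self x, ?_⟩
          rintro (hxG | hxH)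
          · rw [frontier, (hG.preimage hf.continuous).interior_eq] at hx
            exact hx.2 hxG
          · exact hcl (frontier_subset_closure hx) hxH
      · intro h P Q hP hQ hPQ
        obtain ⟨V, hV, h1, h2, h3⟩ := h (f ⁻¹' P) (f ⁻¹' Q)ᶜ (hP.preimage hf.continuous)
          (hQ.preimage hf.continuous).isOpen_compl (by
            intro x hxP hxQ
            have : f x ∈ range f ∩ P ∩ Q := ⟨⟨mem_range_self x, hxP⟩, hxQ⟩
            rw [hPQ] at this
            exact this)
        obtain ⟨G, hG, hGV⟩ := hf.isInducing.isOpen_iff.mp hV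
        obtain ⟨H, hH, hHV⟩ := hf.isInducing.isOpen_iff.mp (isClosed_closure (s := V)).isOpen_compl
        have hGV' : ∀ x, f x ∈ G ↔ x ∈ V := fun x => by rw [← hGV]; rfl
        have hHV' : ∀ x, f x ∈ H ↔ x ∉ closure V := fun x => by
          rw [← mem_compl_iff, ← hHV]; rfl
        refine ⟨G, H, hG, hH, ?_, ?_, ?_, ?_⟩
        · rintro _ ⟨⟨x, rfl⟩, hx⟩
          exact (hGV' x).mpr (h1 hx)
        · rintro _ ⟨⟨x, rfl⟩, hx⟩
          exact (hHV' x).mpr (fun hc => h2 hc hx)
        · rw [← subset_empty_iff]
          rintro _ ⟨⟨⟨x, rfl⟩, hxG⟩, hxH⟩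
          exact (hHV' x).mp hxH (subset_closure ((hGV' x).mp hxG))
        · have hfr : IsClosedEmbedding (fun x : ↥(frontier V) => f x) :=
            hf.comp isClosed_frontier.isClosedEmbedding_subtypeVal
          have : range f \ (G ∪ H) = range (fun x : ↥(frontier V) => f x) := by
            ext z
            constructor
            · rintro ⟨⟨x, rfl⟩, hx⟩
              rw [mem_union, not_or, hGV', hHV', not_not] at hx
              refine ⟨⟨x, ?_⟩, rfl⟩
              rw [frontier, hV.interior_eq]
              exact ⟨hx.2, hx.1⟩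
            · rintro ⟨⟨x, hx⟩, rfl⟩
              refine ⟨mem_range_self x, ?_⟩
              rw [mem_union, not_or, hGV', hHV', not_not]
              rw [frontier, hV.interior_eq] at hx
              exact ⟨hx.2, hx.1⟩
          rw [this, sind_range_iff n hfr]
          exact h3

theorem sind_iff (n : ℕ) {F : Set Z} (hF : IsClosed F) : SInd n F ↔ IndLT n ↥F := by
  have := sind_range_iff n hF.isClosedEmbedding_subtypeVal
  rwa [Subtype.range_coe] at this

theorem sind_univ_iff (n : ℕ) : SInd n (univ : Set Z) ↔ IndLT n Z := by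
  have := sind_range_iff n (IsClosedEmbedding.id (X := Z))
  rwa [range_id] at this

theorem IndLT.mono {n m : ℕ} (hnm : n ≤ m) (h : IndLT n Z) : IndLT m Z := by
  rw [← sind_univ_iff] at h ⊢
  exact h.mono hnm

open Classical in
theorem ind_le_iff (n : ℕ) : Ind Z ≤ (((n : ℤ) - 1 : ℤ) : WithTop ℤ) ↔ IndLT n Z := by
  unfold Ind
  split_ifs with h
  · rw [WithTop.coe_le_coe]
    constructor
    · intro hn
      have : Nat.find h ≤ n := by omega
      exact (Nat.find_spec h).mono this
    · intro hn
      have := Nat.find_min' h hn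
      omega
  · constructor
    · intro hn
      simp at hn
    · intro hn
      exact absurd ⟨n, hn⟩ h

theorem ind_eq_top_or (Z : Type u) [TopologicalSpace Z] :
    Ind Z = ⊤ ∨ ∃ n : ℕ, IndLT n Z ∧ Ind Z = (((n : ℤ) - 1 : ℤ) : WithTop ℤ) := by
  classical
  by_cases h : ∃ n : ℕ, IndLT n Z
  · right
    refine ⟨Nat.find h, Nat.find_spec h, ?_⟩
    unfold Ind
    rw [dif_pos h]
  · left
    unfold Ind
    rw [dif_neg h]

/-- The finite sum theorem in the set based form, for two closed sets. -/
theorem FiniteSumInd.sind_union (hZ : FiniteSumInd Z) {n : ℕ} {A B : Set Z} (hA : IsClosed A)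
    (hB : IsClosed B) (h1 : SInd n A) (h2 : SInd n B) : SInd n (A ∪ B) := by
  rw [sind_iff n hA] at h1
  rw [sind_iff n hB] at h2
  rw [sind_iff n (hA.union hB)]
  rw [← ind_le_iff] at h1 h2 ⊢
  have key := hZ 1 ![A, B] (by
    intro i
    fin_cases i
    · exact hA
    · exact hB)
  have hU : (⋃ i, (![A, B] : Fin 2 → Set Z) i) = A ∪ B := by
    ext z
    simp [Fin.exists_fin_two]
  rw [hU] at key
  refine key.trans ?_
  refine Finset.sup'_le _ _ ?_
  intro i _
  fin_cases i
  · exact h1
  · exact h2

end Basic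

/-! ### Chains of closed sets -/

/-- An increasing sequence of closed sets `s 0 = ∅ ⊆ s 1 ⊆ …` with `Ind (s n) < n`. -/
structure Chain (X : Type u) [TopologicalSpace X] where
  s : ℕ → Set X
  closed : ∀ n, IsClosed (s n)
  mono : Monotone s
  ind : ∀ n, SInd n (s n)

namespace Chain

variable {X : Type u} [TopologicalSpace X]

theorem zero (A : Chain X) : A.s 0 = ∅ := A.ind 0

/-- Union of two chains. -/
def union (hX : FiniteSumInd X) (A B : Chain X) : Chain X where
  s n := A.s n ∪ B.s n
  closed n := (A.closed n).union (B.closed n)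
  mono _ _ h := union_subset_union (A.mono h) (B.mono h)
  ind n := hX.sind_union (A.closed n) (B.closed n) (A.ind n) (B.ind n)

/-- The empty chain. -/
def empty (X : Type u) [TopologicalSpace X] : Chain X where
  s _ := ∅
  closed _ := isClosed_empty
  mono _ _ _ := le_rfl
  ind n := SInd.mono (Nat.zero_le n) (show SInd 0 (∅ : Set X) from rfl)

/-- The chain which is empty below `m` and equal to the whole space from `m` on. -/
def step (m : ℕ) (hm : IndLT m X) : Chain X where
  s n := if m ≤ n then univ else ∅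
  closed n := by split_ifs <;> simp
  mono a b hab := by
    by_cases h : m ≤ a
    · simp [h, h.trans hab]
    · simp [h]
  ind n := by
    split_ifs with h
    · exact SInd.mono h ((sind_univ_iff m).mpr hm)
    · exact SInd.mono (Nat.zero_le n) (show SInd 0 (∅ : Set X) from rfl)

/-- Compatible partitions along a chain, up to level `K`. -/
theorem partition [NormalSpace X] (hX : FiniteSumInd X) (A : Chain X) :
    ∀ (K : ℕ) (C D : Set X), IsClosed C → IsClosed D → C ∩ D = ∅ →
      ∃ G H : ℕ → Set X, (∀ a ≤ K, IsOpen (G a)) ∧ (∀ a ≤ K, IsOpen (H a)) ∧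
        (∀ a ≤ K, A.s a ∩ G a ∩ H a = ∅) ∧
        (∀ a ≤ K, A.s a ∩ C ⊆ G a) ∧ (∀ a ≤ K, A.s a ∩ D ⊆ H a) ∧
        (∀ a b, a ≤ b → b ≤ K → A.s a ∩ G b ⊆ G a) ∧
        (∀ a b, a ≤ b → b ≤ K → A.s a ∩ H b ⊆ H a) ∧
        (∀ a, a + 1 ≤ K → SInd a (A.s (a + 1) \ (G (a + 1) ∪ H (a + 1)))) := by
  intro K
  induction K with
  | zero =>
    intro C D _ _ _
    refine ⟨fun _ => ∅, fun _ => ∅, ?_, ?_, ?_, ?_, ?_, ?_, ?_, ?_⟩
    · intro a _; exact isOpen_empty
    · intro a _; exact isOpen_empty
    · intro a _; simp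
    · intro a ha
      obtain rfl : a = 0 := by omega
      rw [A.zero]; simp
    · intro a ha
      obtain rfl : a = 0 := by omega
      rw [A.zero]; simp
    · intro a b _ _; simp
    · intro a b _ _; simp
    · intro a ha; omega
  | succ K ih =>
    intro C D hC hD hCD
    obtain ⟨U, V, hU, hV, h1, h2, h3, h4⟩ := A.ind (K + 1) C D hC hD (by
      rw [inter_assoc, hCD, inter_empty])
    set S : Set X := A.s (K + 1) \ (U ∪ V) with hS
    have hSc : IsClosed S := by
      rw [hS, sdiff_eq]
      exact (A.closed _).inter (hU.union hV).isClosed_compl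
    have hSsub : A.s K ⊆ A.s (K + 1) := A.mono (Nat.le_succ K)
    -- thickening
    obtain ⟨O, hO, hSO, hOC⟩ := normal_exists_closure_subset
      (hSc.inter (A.closed K)) (hC.union hD).isOpen_compl (by
        rintro x ⟨⟨hx, hxUV⟩, -⟩ hxCD
        rcases hxCD with hxC | hxD
        · exact hxUV (Or.inl (h1 ⟨hx, hxC⟩))
        · exact hxUV (Or.inr (h2 ⟨hx, hxD⟩)))
    set N : Set X := closure O ∩ A.s K with hN
    have hNc : IsClosed N := isClosed_closure.inter (A.closed K)
    have hCN : ∀ x ∈ C, x ∉ N := fun x hx hxN => hOC hxN.1 (Or.inl hx)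
    have hDN : ∀ x ∈ D, x ∉ N := fun x hx hxN => hOC hxN.1 (Or.inr hx)
    set G1 : Set X := U ∩ Nᶜ with hG1
    set H1 : Set X := V ∩ Nᶜ with hH1
    have hG1o : IsOpen G1 := hU.inter hNc.isOpen_compl
    have hH1o : IsOpen H1 := hV.inter hNc.isOpen_compl
    have hUV : ∀ x ∈ A.s (K + 1), x ∈ U → x ∈ V → False := by
      intro x hx hxU hxV
      have : x ∈ A.s (K + 1) ∩ U ∩ V := ⟨⟨hx, hxU⟩, hxV⟩
      rw [h3] at this
      exact this
    -- the closures of the traces on `A.s K`
    have clG : closure (A.s K ∩ G1) ⊆ U := by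
      intro x hx
      have hxA : x ∈ A.s K := by
        have := closure_mono (inter_subset_left : A.s K ∩ G1 ⊆ A.s K) hx
        rwa [(A.closed K).closure_eq] at this
      have hxO : x ∉ O := by
        intro hxO
        obtain ⟨y, hyO, hyA, -, hyN⟩ := mem_closure_iff.mp hx O hO hxO
        exact hyN ⟨subset_closure hyO, hyA⟩
      have hxS : x ∉ S := fun h => hxO (hSO ⟨h, hxA⟩)
      have hxUV : x ∈ U ∪ V := by
        by_contra h
        exact hxS ⟨hSsub hxA, h⟩
      rcases hxUV with h | h
      · exact h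
      · obtain ⟨y, hyV, hyA, hyU, -⟩ := mem_closure_iff.mp hx V hV h
        exact (hUV y (hSsub hyA) hyU hyV).elim
    have clH : closure (A.s K ∩ H1) ⊆ V := by
      intro x hx
      have hxA : x ∈ A.s K := by
        have := closure_mono (inter_subset_left : A.s K ∩ H1 ⊆ A.s K) hx
        rwa [(A.closed K).closure_eq] at this
      have hxO : x ∉ O := by
        intro hxO
        obtain ⟨y, hyO, hyA, -, hyN⟩ := mem_closure_iff.mp hx O hO hxO
        exact hyN ⟨subset_closure hyO, hyA⟩
      have hxS : x ∉ S := fun h => hxO (hSO ⟨h, hxA⟩)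
      have hxUV : x ∈ U ∪ V := by
        by_contra h
        exact hxS ⟨hSsub hxA, h⟩
      rcases hxUV with h | h
      · obtain ⟨y, hyU, hyA, hyV, -⟩ := mem_closure_iff.mp hx U hU h
        exact (hUV y (hSsub hyA) hyU hyV).elim
      · exact h
    obtain ⟨G, H, g1, g2, g3, g4, g5, g6, g7, g8⟩ := ih (closure (A.s K ∩ G1))
      (closure (A.s K ∩ H1)) isClosed_closure isClosed_closure (by
        rw [← subset_empty_iff]
        rintro x ⟨hx1, hx2⟩
        have hxA : x ∈ A.s K := by
          have := closure_mono (inter_subset_left : A.s K ∩ G1 ⊆ A.s K) hx1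
          rwa [(A.closed K).closure_eq] at this
        exact hUV x (hSsub hxA) (clG hx1) (clH hx2))
    have g4' : ∀ a ≤ K, A.s a ∩ G1 ⊆ G a := by
      intro a ha x hx
      exact g4 a ha ⟨hx.1, subset_closure ⟨A.mono ha hx.1, hx.2⟩⟩
    have g5' : ∀ a ≤ K, A.s a ∩ H1 ⊆ H a := by
      intro a ha x hx
      exact g5 a ha ⟨hx.1, subset_closure ⟨A.mono ha hx.1, hx.2⟩⟩
    refine ⟨fun a => if a ≤ K then G a else G1, fun a => if a ≤ K then H a else H1,
      ?_, ?_, ?_, ?_, ?_, ?_, ?_, ?_⟩
    · intro a ha
      dsimp only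
      split_ifs with h
      · exact g1 a h
      · exact hG1o
    · intro a ha
      dsimp only
      split_ifs with h
      · exact g2 a h
      · exact hH1o
    · intro a ha
      dsimp only
      split_ifs with h
      · exact g3 a h
      · obtain rfl : a = K + 1 := by omega
        rw [← subset_empty_iff]
        rintro x ⟨⟨hx, hxG⟩, hxH⟩
        exact hUV x hx hxG.1 hxH.1
    · intro a ha
      dsimp only
      split_ifs with h
      · intro x hx
        refine g4' a h ⟨hx.1, ?_, hCN x hx.2⟩
        exact h1 ⟨A.mono ha hx.1, hx.2⟩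
      · obtain rfl : a = K + 1 := by omega
        intro x hx
        exact ⟨h1 hx, hCN x hx.2⟩
    · intro a ha
      dsimp only
      split_ifs with h
      · intro x hx
        refine g5' a h ⟨hx.1, ?_, hDN x hx.2⟩
        exact h2 ⟨A.mono ha hx.1, hx.2⟩
      · obtain rfl : a = K + 1 := by omega
        intro x hx
        exact ⟨h2 hx, hDN x hx.2⟩
    · intro a b hab hb
      dsimp only
      by_cases h : b ≤ K
      · rw [if_pos h, if_pos (hab.trans h)]
        exact g6 a b hab h
      · rw [if_neg h]
        split_ifs with h'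
        · exact g4' a h'
        · exact inter_subset_right
    · intro a b hab hb
      dsimp only
      by_cases h : b ≤ K
      · rw [if_pos h, if_pos (hab.trans h)]
        exact g7 a b hab h
      · rw [if_neg h]
        split_ifs with h'
        · exact g5' a h'
        · exact inter_subset_right
    · intro a ha
      dsimp only
      split_ifs with h
      · exact g8 a h
      · obtain rfl : a = K := by omega
        have : A.s (a + 1) \ (G1 ∪ H1) = S ∪ N := by
          ext x
          constructor
          · rintro ⟨hx, hxGH⟩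
            by_cases hxN : x ∈ N
            · exact Or.inr hxN
            · left
              refine ⟨hx, ?_⟩
              rintro (h | h)
              · exact hxGH (Or.inl ⟨h, hxN⟩)
              · exact hxGH (Or.inr ⟨h, hxN⟩)
          · rintro (hx | hx)
            · refine ⟨hx.1, ?_⟩
              rintro (h | h)
              · exact hx.2 (Or.inl h.1)
              · exact hx.2 (Or.inr h.1)
            · refine ⟨hSsub hx.2, ?_⟩
              rintro (h | h)
              · exact h.2 hx
              · exact h.2 hx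
        rw [this]
        exact hX.sind_union hSc hNc h4 ((A.ind a).mono_set hNc inter_subset_right)

end Chain

end Pool.Agent.Helper84.IndDim
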