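import Pool.Agent.Helper84.IndDim

/-!
Finite unions of closed rectangles of bounded total dimension, and their partitions.
-/

open Set Topology

universe u v w

namespace Pool.Agent.Helper84.IndDim

variable {X : Type u} {Y : Type v} [TopologicalSpace X] [TopologicalSpace Y]

/-- The union of the closed rectangles `A a × B b` with `a + b = K + 1`. -/
def Phi (A : Chain X) (B : Chain Y) (K : ℕ) : Set (X × Y) :=
  {p | ∃ a b : ℕ, a + b = K + 1 ∧ p.1 ∈ A.s a ∧ p.2 ∈ B.s b}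

theorem Phi_closed (A : Chain X) (B : Chain Y) (K : ℕ) : IsClosed (Phi A B K) := by
  have : Phi A B K = ⋃ a ∈ Finset.range (K + 2), (A.s a) ×ˢ (B.s (K + 1 - a)) := by
    ext p
    simp only [Phi, mem_ofPred_eq, mem_iUnion, Finset.mem_range, mem_prod, exists_prop]
    constructor
    · rintro ⟨a, b, hab, h1, h2⟩
      refine ⟨a, by omega, h1, ?_⟩
      have : K + 1 - a = b := by omega
      rwa [this]
    · rintro ⟨a, ha, h1, h2⟩
      exact ⟨a, K + 1 - a, by omega, h1, h2⟩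
  rw [this]
  exact isClosed_biUnion_finset fun a _ => (A.closed _).prod (B.closed _)

/-- `T` is contained in a finite union of closed rectangles of total dimension `< K`. -/
def Small (K : ℕ) (T : Set (X × Y)) : Prop :=
  ∃ (A : Chain X) (B : Chain Y), T ⊆ Phi A B K

theorem Small.mono {K : ℕ} {T T' : Set (X × Y)} (h : Small K T) (hT : T' ⊆ T) : Small K T' := by
  obtain ⟨A, B, hAB⟩ := h
  exact ⟨A, B, hT.trans hAB⟩

theorem Small.empty (K : ℕ) : Small K (∅ : Set (X × Y)) :=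
  ⟨Chain.empty X, Chain.empty Y, empty_subset _⟩

theorem Small.eq_empty {T : Set (X × Y)} (h : Small 0 T) : T = ∅ := by
  obtain ⟨A, B, hAB⟩ := h
  rw [← subset_empty_iff]
  intro p hp
  obtain ⟨a, b, hab, h1, h2⟩ := hAB hp
  rcases Nat.eq_zero_or_pos a with ha | ha
  · rw [ha, A.zero] at h1
    exact h1
  · obtain rfl : b = 0 := by omega
    rw [B.zero] at h2
    exact h2.elim

theorem Small.union (hX : FiniteSumInd X) (hY : FiniteSumInd Y) {K : ℕ} {T T' : Set (X × Y)}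
    (h : Small K T) (h' : Small K T') : Small K (T ∪ T') := by
  obtain ⟨A, B, hAB⟩ := h
  obtain ⟨A', B', hAB'⟩ := h'
  refine ⟨A.union hX A', B.union hY B', ?_⟩
  rintro p (hp | hp)
  · obtain ⟨a, b, hab, h1, h2⟩ := hAB hp
    exact ⟨a, b, hab, Or.inl h1, Or.inl h2⟩
  · obtain ⟨a, b, hab, h1, h2⟩ := hAB' hp
    exact ⟨a, b, hab, Or.inr h1, Or.inr h2⟩

theorem Small.biUnion_finite (hX : FiniteSumInd X) (hY : FiniteSumInd Y) {K : ℕ} {ι : Type*}
    {s : Set ι} (hs : s.Finite) {T : ι → Set (X × Y)} (h : ∀ i ∈ s, Small K (T i)) :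
    Small K (⋃ i ∈ s, T i) := by
  induction s, hs using Set.Finite.induction_on with
  | empty => simpa using Small.empty K
  | @insert a s _ _ ih =>
    rw [biUnion_insert]
    exact (h a (mem_insert _ _)).union hX hY (ih fun i hi => h i (mem_insert_of_mem _ hi))

/-- Partition of `Phi` in the direction of `X`. -/
theorem Phi_partition_left [NormalSpace X] (hX : FiniteSumInd X) (A : Chain X) (B : Chain Y)
    (K : ℕ) (C D : Set X) (hC : IsClosed C) (hD : IsClosed D) (hCD : C ∩ D = ∅) :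
    ∃ G H : Set (X × Y), IsOpen G ∧ IsOpen H ∧ Phi A B (K + 1) ∩ G ∩ H = ∅ ∧
      (∀ p ∈ Phi A B (K + 1), p.1 ∈ C → p ∈ G) ∧ (∀ p ∈ Phi A B (K + 1), p.1 ∈ D → p ∈ H) ∧
      Small K (Phi A B (K + 1) \ (G ∪ H)) := by
  obtain ⟨G, H, g1, g2, g3, g4, g5, g6, g7, g8⟩ := A.partition hX (K + 1) C D hC hD hCD
  -- reduce each point of `Phi` to its canonical level
  have key : ∀ p ∈ Phi A B (K + 1), ∃ a b : ℕ, a + b = K + 2 ∧ a ≤ K + 1 ∧ 1 ≤ a ∧
      p.1 ∈ A.s a ∧ p.2 ∈ B.s b ∧ ∀ b' < b, p.2 ∉ B.s b' := by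
    classical
    rintro p ⟨a, b, hab, h1, h2⟩
    have hex : ∃ b, p.2 ∈ B.s b := ⟨b, h2⟩
    have hb0 : 1 ≤ Nat.find hex := by
      by_contra h0
      have h0' : Nat.find hex = 0 := by omega
      have := Nat.find_spec hex
      rw [h0', B.zero] at this
      exact this
    have hle : Nat.find hex ≤ b := Nat.find_min' hex h2
    have ha : p.1 ∈ A.s (K + 2 - Nat.find hex) := A.mono (by omega) h1
    have ha1 : 1 ≤ K + 2 - Nat.find hex := by
      by_contra h0
      have h0' : K + 2 - Nat.find hex = 0 := by omega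
      rw [h0', A.zero] at ha
      exact ha
    refine ⟨K + 2 - Nat.find hex, Nat.find hex, by omega, by omega, ha1, ha,
      Nat.find_spec hex, fun b' hb' => Nat.find_min hex hb'⟩
  have hG : ∀ (G' : ℕ → Set X), (∀ a b, a ≤ b → b ≤ K + 1 → A.s a ∩ G' b ⊆ G' a) →
      ∀ (p : X × Y) (a b : ℕ), a + b = K + 2 → a ≤ K + 1 → p.1 ∈ A.s a → p.2 ∈ B.s b →
      (∀ b' < b, p.2 ∉ B.s b') →
      (p ∈ (⋃ c ∈ Finset.range (K + 2), (G' c) ×ˢ (B.s (K + 1 - c))ᶜ) ↔ p.1 ∈ G' a) := by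
    intro G' hG' p a b hab ha h1 h2 h3
    simp only [mem_iUnion, Finset.mem_range, mem_prod, mem_compl_iff, exists_prop]
    constructor
    · rintro ⟨c, hc, hpc, hpb⟩
      have : a ≤ c := by
        by_contra hlt
        apply hpb
        exact B.mono (by omega) h2
      exact hG' a c this (by omega) ⟨h1, hpc⟩
    · intro h
      exact ⟨a, by omega, h, h3 _ (by omega)⟩
  refine ⟨⋃ c ∈ Finset.range (K + 2), (G c) ×ˢ (B.s (K + 1 - c))ᶜ,
    ⋃ c ∈ Finset.range (K + 2), (H c) ×ˢ (B.s (K + 1 - c))ᶜ, ?_, ?_, ?_, ?_, ?_, ?_⟩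
  · refine isOpen_biUnion fun c hc => ?_
    exact (g1 c (by have := Finset.mem_range.mp hc; omega)).prod (B.closed _).isOpen_compl
  · refine isOpen_biUnion fun c hc => ?_
    exact (g2 c (by have := Finset.mem_range.mp hc; omega)).prod (B.closed _).isOpen_compl
  · rw [← subset_empty_iff]
    rintro p ⟨⟨hp, hpG⟩, hpH⟩
    obtain ⟨a, b, hab, ha, ha1, h1, h2, h3⟩ := key p hp
    rw [hG G g6 p a b hab ha h1 h2 h3] at hpG
    rw [hG H g7 p a b hab ha h1 h2 h3] at hpH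
    have : p.1 ∈ A.s a ∩ G a ∩ H a := ⟨⟨h1, hpG⟩, hpH⟩
    rw [g3 a ha] at this
    exact this
  · intro p hp hpC
    obtain ⟨a, b, hab, ha, ha1, h1, h2, h3⟩ := key p hp
    rw [hG G g6 p a b hab ha h1 h2 h3]
    exact g4 a ha ⟨h1, hpC⟩
  · intro p hp hpD
    obtain ⟨a, b, hab, ha, ha1, h1, h2, h3⟩ := key p hp
    rw [hG H g7 p a b hab ha h1 h2 h3]
    exact g5 a ha ⟨h1, hpD⟩
  · have hmono : ∀ a c : ℕ, a ≤ c → c ≤ K → A.s (a + 1) \ (G (a + 1) ∪ H (a + 1)) ⊆
        A.s (c + 1) \ (G (c + 1) ∪ H (c + 1)) := by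
      rintro a c hac hc x ⟨hx, hxGH⟩
      refine ⟨A.mono (by omega) hx, ?_⟩
      rintro (h | h)
      · exact hxGH (Or.inl (g6 (a + 1) (c + 1) (by omega) (by omega) ⟨hx, h⟩))
      · exact hxGH (Or.inr (g7 (a + 1) (c + 1) (by omega) (by omega) ⟨hx, h⟩))
    let M : Chain X :=
      { s := fun n => A.s (min n K + 1) \ (G (min n K + 1) ∪ H (min n K + 1))
        closed := fun n => by
          rw [sdiff_eq]
          exact (A.closed _).inter
            ((g1 _ (by omega)).union (g2 _ (by omega))).isClosed_compl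
        mono := fun a c hac => hmono _ _ (by omega) (by omega)
        ind := fun n => (g8 (min n K) (by omega)).mono (by omega) }
    refine ⟨M, B, ?_⟩
    rintro p ⟨hp, hpGH⟩
    obtain ⟨a, b, hab, ha, ha1, h1, h2, h3⟩ := key p hp
    rw [mem_union, hG G g6 p a b hab ha h1 h2 h3, hG H g7 p a b hab ha h1 h2 h3] at hpGH
    refine ⟨a - 1, b, by omega, ?_, h2⟩
    have ha' : min (a - 1) K + 1 = a := by omega
    show p.1 ∈ A.s (min (a - 1) K + 1) \ (G (min (a - 1) K + 1) ∪ H (min (a - 1) K + 1))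
    rw [ha']
    exact ⟨h1, hpGH⟩

theorem Phi_swap (A : Chain X) (B : Chain Y) (K : ℕ) :
    Phi A B K = Prod.swap ⁻¹' (Phi B A K) := by
  ext p
  constructor
  · rintro ⟨a, b, hab, h1, h2⟩
    exact ⟨b, a, by omega, h2, h1⟩
  · rintro ⟨a, b, hab, h1, h2⟩
    exact ⟨b, a, by omega, h2, h1⟩

/-- Partition of `Phi` in the direction of `Y`. -/
theorem Phi_partition_right [NormalSpace Y] (hY : FiniteSumInd Y) (A : Chain X) (B : Chain Y)
    (K : ℕ) (C D : Set Y) (hC : IsClosed C) (hD : IsClosed D) (hCD : C ∩ D = ∅) :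
    ∃ G H : Set (X × Y), IsOpen G ∧ IsOpen H ∧ Phi A B (K + 1) ∩ G ∩ H = ∅ ∧
      (∀ p ∈ Phi A B (K + 1), p.2 ∈ C → p ∈ G) ∧ (∀ p ∈ Phi A B (K + 1), p.2 ∈ D → p ∈ H) ∧
      Small K (Phi A B (K + 1) \ (G ∪ H)) := by
  obtain ⟨G, H, g1, g2, g3, g4, g5, M, N, g6⟩ :=
    Phi_partition_left (Y := X) hY B A K C D hC hD hCD
  refine ⟨Prod.swap ⁻¹' G, Prod.swap ⁻¹' H, g1.preimage continuous_swap,
    g2.preimage continuous_swap, ?_, ?_, ?_, N, M, ?_⟩
  · rw [Phi_swap, ← preimage_inter, ← preimage_inter, g3, preimage_empty]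
  · intro p hp hpC
    rw [Phi_swap] at hp
    exact g4 _ hp hpC
  · intro p hp hpD
    rw [Phi_swap] at hp
    exact g5 _ hp hpD
  · intro p hp
    rw [Phi_swap] at hp ⊢
    exact g6 hp

/-- The local lemma: a set `T` which is small inside an open rectangle `U × V` has a partition
between `U' × V'` and the complement of `closure U × closure V` with small remainder. -/
theorem local_partition [NormalSpace X] [NormalSpace Y] (hX : FiniteSumInd X)
    (hY : FiniteSumInd Y) {K : ℕ} {T : Set (X × Y)} {U U' : Set X} {V V' : Set Y}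
    (hU : IsOpen U) (hV : IsOpen V) (hUU : closure U' ⊆ U) (hVV : closure V' ⊆ V)
    (hT : Small (K + 1) (T ∩ U ×ˢ V)) :
    ∃ N M : Set (X × Y), IsOpen N ∧ IsOpen M ∧ T ∩ N ∩ M = ∅ ∧ T ∩ U' ×ˢ V' ⊆ N ∧
      (closure U ×ˢ closure V)ᶜ ⊆ M ∧ Small K (T \ (N ∪ M)) := by
  obtain ⟨A, B, hAB⟩ := hT
  obtain ⟨G, H, g1, g2, g3, g4, g5, g6⟩ := Phi_partition_left (Y := Y) hX A B K (closure U') Uᶜ
    isClosed_closure hU.isClosed_compl (by
      rw [← subset_empty_iff]
      rintro x ⟨hx, hx'⟩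
      exact hx' (hUU hx))
  obtain ⟨G', H', g1', g2', g3', g4', g5', g6'⟩ := Phi_partition_right (X := X) hY A B K
    (closure V') Vᶜ isClosed_closure hV.isClosed_compl (by
      rw [← subset_empty_iff]
      rintro x ⟨hx, hx'⟩
      exact hx' (hVV hx))
  refine ⟨(G ∩ G') ∩ U ×ˢ V, (H ∪ H') ∪ (Phi A B (K + 1) ∩ closure U ×ˢ closure V)ᶜ,
    (g1.inter g1').inter (hU.prod hV),
    (g2.union g2').union ((Phi_closed _ _ _).inter
      (isClosed_closure.prod isClosed_closure)).isOpen_compl, ?_, ?_, ?_, ?_⟩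
  · rw [← subset_empty_iff]
    rintro p ⟨⟨hp, ⟨hpG, hpG'⟩, hpUV⟩, hpM⟩
    have hpΦ : p ∈ Phi A B (K + 1) := hAB ⟨hp, hpUV⟩
    rcases hpM with (hpH | hpH') | hpc
    · have : p ∈ Phi A B (K + 1) ∩ G ∩ H := ⟨⟨hpΦ, hpG⟩, hpH⟩
      rw [g3] at this; exact this
    · have : p ∈ Phi A B (K + 1) ∩ G' ∩ H' := ⟨⟨hpΦ, hpG'⟩, hpH'⟩
      rw [g3'] at this; exact this
    · exact hpc ⟨hpΦ, subset_closure hpUV.1, subset_closure hpUV.2⟩
  · rintro p ⟨hp, hpU, hpV⟩
    have hpUV : p ∈ U ×ˢ V := ⟨hUU (subset_closure hpU), hVV (subset_closure hpV)⟩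
    have hpΦ : p ∈ Phi A B (K + 1) := hAB ⟨hp, hpUV⟩
    exact ⟨⟨g4 p hpΦ (subset_closure hpU), g4' p hpΦ (subset_closure hpV)⟩, hpUV⟩
  · intro p hp
    right
    intro hp'
    exact hp hp'.2
  · refine (Small.union hX hY g6 g6').mono ?_
    rintro p ⟨hp, hpNM⟩
    have hpc : p ∈ Phi A B (K + 1) ∩ closure U ×ˢ closure V := by
      by_contra h
      exact hpNM (Or.inr (Or.inr h))
    have hpH : p ∉ H := fun h => hpNM (Or.inr (Or.inl (Or.inl h)))
    have hpH' : p ∉ H' := fun h => hpNM (Or.inr (Or.inl (Or.inr h)))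
    have hpU : p.1 ∈ U := by
      by_contra h
      exact hpH (g5 p hpc.1 h)
    have hpV : p.2 ∈ V := by
      by_contra h
      exact hpH' (g5' p hpc.1 h)
    by_cases hpG : p ∈ G
    · right
      refine ⟨hpc.1, ?_⟩
      rintro (h | h)
      · exact hpNM (Or.inl ⟨⟨hpG, h⟩, hpU, hpV⟩)
      · exact hpH' h
    · left
      refine ⟨hpc.1, ?_⟩
      rintro (h | h)
      · exact hpG h
      · exact hpH h

end Pool.Agent.Helper84.IndDim
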