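import Pool.Agent.Helper84.Stage

/-!
The case in which `X` is paracompact and sigma-locally compact.
-/

open Set Topology

universe u v w

namespace Pool.Agent.Helper84.IndDim

variable {X : Type u} {Y : Type v} [TopologicalSpace X] [TopologicalSpace Y]

/-- A partial partition of `F` between `P` and `Q`, defined on an open set `W`. -/
structure PState (K : ℕ) (F P Q : Set (X × Y)) where
  W : Set (X × Y)
  W' : Set (X × Y)
  G : Set (X × Y)
  H : Set (X × Y)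
  T : Set (X × Y)
  hW : IsOpen W
  hW' : IsOpen W'
  hWW : closure W' ⊆ W
  hG : IsOpen G
  hH : IsOpen H
  disj : ∀ z ∈ F, z ∈ W → z ∈ G → z ∈ H → False
  hP : ∀ z ∈ F, z ∈ W → z ∈ P → z ∈ G
  hQ : ∀ z ∈ F, z ∈ W → z ∈ Q → z ∈ H
  hT : Tame K T
  rest : ∀ z ∈ F, z ∈ W → z ∉ G → z ∉ H → z ∈ T

/-- One step of the recursion. -/
theorem PState.step [T2Space X] [ParacompactSpace X] [T4Space Y] [NormalSpace (X × Y)]
    (hX : FiniteSumInd X) (hY : FiniteSumInd Y) {K : ℕ} {F P Q : Set (X × Y)}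
    (hF : IsClosed F) (hPc : IsClosed P) (hQc : IsClosed Q) (hPQ : F ∩ P ∩ Q = ∅)
    {E : Set X} (hE : IsClosed E) (hEc : LocallyCompactSpace ↥E)
    {Wh Th : Set (X × Y)} (hWh : IsOpen Wh) (hEW : E ×ˢ univ ⊆ Wh) (hTh : Tame (K + 1) Th)
    (hFT : F ∩ Wh ⊆ Th) (s : PState K F P Q) :
    ∃ s' : PState K F P Q, E ×ˢ univ ⊆ s'.W' ∧ closure s.W' ⊆ s'.W' ∧
      (∀ z ∈ F, z ∈ s.W' → (z ∈ s'.G ↔ z ∈ s.G)) ∧
      (∀ z ∈ F, z ∈ s.W' → (z ∈ s'.H ↔ z ∈ s.H)) := by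
  obtain ⟨S1, G1, H1, T1, hS1, hES1, hG1, hH1, d1, p1, q1, t1, r1⟩ :=
    loc_stage hX hY hTh hE hEc (hF.inter hPc) (hF.inter hQc) (by
      rw [Set.disjoint_left]
      rintro z ⟨hz, hzP⟩ ⟨-, hzQ⟩
      have : z ∈ F ∩ P ∩ Q := ⟨⟨hz, hzP⟩, hzQ⟩
      rw [hPQ] at this
      exact this)
  obtain ⟨S2, O1, O2, T2, hS2, hES2, hO1, hO2, d2, p2, q2, t2, r2⟩ :=
    loc_stage hX hY hTh hE hEc (P := closure s.W') (Q := s.Wᶜ) isClosed_closure
      s.hW.isClosed_compl (by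
        rw [Set.disjoint_left]
        intro z hz hz'
        exact hz' (s.hWW hz))
  have hEcl : IsClosed (E ×ˢ (univ : Set Y)) := hE.prod isClosed_univ
  obtain ⟨S', hS', hES', hS'c⟩ := normal_exists_closure_subset hEcl
    ((hS1.inter hS2).inter hWh) (fun z hz => ⟨⟨hES1 hz, hES2 hz⟩, hEW hz⟩)
  -- facts about points of `F ∩ closure S'`
  have a0 : ∀ z ∈ F, z ∈ closure S' → z ∈ Th ∧ z ∈ S1 ∧ z ∈ S2 := by
    intro z hz hzS
    have := hS'c hzS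
    exact ⟨hFT ⟨hz, this.2⟩, this.1.1, this.1.2⟩
  have aO : ∀ z ∈ F, z ∈ closure S' → z ∈ O1 → z ∈ O2 → False := by
    intro z hz hzS h1 h2
    obtain ⟨b1, b2, b3⟩ := a0 z hz hzS
    have : z ∈ Th ∩ S2 ∩ O1 ∩ O2 := ⟨⟨⟨b1, b3⟩, h1⟩, h2⟩
    rw [d2] at this
    exact this
  have aGH : ∀ z ∈ F, z ∈ closure S' → z ∈ G1 → z ∈ H1 → False := by
    intro z hz hzS h1 h2
    obtain ⟨b1, b2, b3⟩ := a0 z hz hzS
    have : z ∈ Th ∩ S1 ∩ G1 ∩ H1 := ⟨⟨⟨b1, b2⟩, h1⟩, h2⟩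
    rw [d1] at this
    exact this
  have aW : ∀ z ∈ F, z ∈ closure S' → z ∉ O2 → z ∈ s.W := by
    intro z hz hzS h2
    obtain ⟨b1, b2, b3⟩ := a0 z hz hzS
    by_contra hzW
    exact h2 (q2 ⟨⟨b1, b3⟩, hzW⟩)
  have aW' : ∀ z ∈ F, z ∈ closure S' → z ∈ closure s.W' → z ∈ O1 := by
    intro z hz hzS h2
    obtain ⟨b1, b2, b3⟩ := a0 z hz hzS
    exact p2 ⟨⟨b1, b3⟩, h2⟩
  have aP : ∀ z ∈ F, z ∈ closure S' → z ∈ P → z ∈ G1 := by
    intro z hz hzS h2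
    obtain ⟨b1, b2, b3⟩ := a0 z hz hzS
    exact p1 ⟨⟨b1, b2⟩, hz, h2⟩
  have aQ : ∀ z ∈ F, z ∈ closure S' → z ∈ Q → z ∈ H1 := by
    intro z hz hzS h2
    obtain ⟨b1, b2, b3⟩ := a0 z hz hzS
    exact q1 ⟨⟨b1, b2⟩, hz, h2⟩
  -- the open set `Ω`
  obtain ⟨Ω, hΩ, hWΩ, hΩc⟩ := normal_exists_closure_subset (isClosed_closure (s := s.W'))
    (s.hW.inter ((hF.inter isClosed_closure).inter hO1.isClosed_compl).isOpen_compl :
      IsOpen (s.W ∩ (F ∩ closure S' ∩ O1ᶜ)ᶜ)) (by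
      intro z hz
      refine ⟨s.hWW hz, ?_⟩
      rintro ⟨⟨hzF, hzS⟩, hzO⟩
      exact hzO (aW' z hzF hzS hz))
  have hΩW : ∀ z ∈ Ω, z ∈ s.W := fun z hz => (hΩc (subset_closure hz)).1
  have hΩO : ∀ z ∈ F, z ∈ S' → z ∈ Ω → z ∈ O1 := by
    intro z hz hzS hzΩ
    by_contra h
    exact (hΩc (subset_closure hzΩ)).2 ⟨⟨hz, subset_closure hzS⟩, h⟩
  obtain ⟨W', hW', hWW', hW'c⟩ := normal_exists_closure_subset
    ((isClosed_closure (s := s.W')).union hEcl) (hΩ.union hS')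
    (union_subset_union hWΩ hES')
  refine ⟨{
    W := Ω ∪ S'
    W' := W'
    G := (s.G ∩ Ω) ∪ (((s.G ∩ s.W ∩ O1) ∪ (G1 ∩ O2) ∪ (s.G ∩ s.W ∩ G1)) ∩ S')
    H := (s.H ∩ Ω) ∪ (((s.H ∩ s.W ∩ O1) ∪ (H1 ∩ O2) ∪ (s.H ∩ s.W ∩ H1)) ∩ S')
    T := s.T ∪ T1 ∪ T2
    hW := hΩ.union hS'
    hW' := hW'
    hWW := hW'c
    hG := (s.hG.inter hΩ).union (((((s.hG.inter s.hW).inter hO1).union (hG1.inter hO2)).union
      ((s.hG.inter s.hW).inter hG1)).inter hS')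
    hH := (s.hH.inter hΩ).union (((((s.hH.inter s.hW).inter hO1).union (hH1.inter hO2)).union
      ((s.hH.inter s.hW).inter hH1)).inter hS')
    disj := ?_
    hP := ?_
    hQ := ?_
    hT := (s.hT.union hX hY t1).union hX hY t2
    rest := ?_ }, ?_, ?_, ?_, ?_⟩
  · -- disjointness
    rintro z hz - hzG hzH
    rcases hzG with ⟨hzG, hzΩ⟩ | ⟨hzG, hzS⟩
    · rcases hzH with ⟨hzH, -⟩ | ⟨hzH, hzS⟩
      · exact s.disj z hz (hΩW z hzΩ) hzG hzH
      · have hz1 := hΩO z hz hzS hzΩ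
        rcases hzH with (⟨⟨hzH, -⟩, -⟩ | ⟨-, hzO⟩) | ⟨⟨hzH, -⟩, -⟩
        · exact s.disj z hz (hΩW z hzΩ) hzG hzH
        · exact aO z hz (subset_closure hzS) hz1 hzO
        · exact s.disj z hz (hΩW z hzΩ) hzG hzH
    · rcases hzH with ⟨hzH, hzΩ⟩ | ⟨hzH, -⟩
      · have hz1 := hΩO z hz hzS hzΩ
        rcases hzG with (⟨⟨hzG, -⟩, -⟩ | ⟨-, hzO⟩) | ⟨⟨hzG, -⟩, -⟩
        · exact s.disj z hz (hΩW z hzΩ) hzG hzH
        · exact aO z hz (subset_closure hzS) hz1 hzO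
        · exact s.disj z hz (hΩW z hzΩ) hzG hzH
      · have hzS' := subset_closure hzS
        rcases hzG with (⟨⟨g1, g2⟩, g3⟩ | ⟨g1, g2⟩) | ⟨⟨g1, g2⟩, g3⟩
        · rcases hzH with (⟨⟨h1, h2⟩, h3⟩ | ⟨h1, h2⟩) | ⟨⟨h1, h2⟩, h3⟩
          · exact s.disj z hz g2 g1 h1
          · exact aO z hz hzS' g3 h2
          · exact s.disj z hz g2 g1 h1
        · rcases hzH with (⟨⟨h1, h2⟩, h3⟩ | ⟨h1, h2⟩) | ⟨⟨h1, h2⟩, h3⟩
          · exact aO z hz hzS' h3 g2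
          · exact aGH z hz hzS' g1 h1
          · exact aGH z hz hzS' g1 h3
        · rcases hzH with (⟨⟨h1, h2⟩, h3⟩ | ⟨h1, h2⟩) | ⟨⟨h1, h2⟩, h3⟩
          · exact s.disj z hz g2 g1 h1
          · exact aGH z hz hzS' g3 h1
          · exact s.disj z hz g2 g1 h1
  · -- `P`
    rintro z hz hzW hzP
    rcases hzW with hzΩ | hzS
    · exact Or.inl ⟨s.hP z hz (hΩW z hzΩ) hzP, hzΩ⟩
    · right
      have hzS' := subset_closure hzS
      have hzG1 := aP z hz hzS' hzP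
      refine ⟨?_, hzS⟩
      by_cases hzO : z ∈ O2
      · exact Or.inl (Or.inr ⟨hzG1, hzO⟩)
      · have hzW := aW z hz hzS' hzO
        exact Or.inr ⟨⟨s.hP z hz hzW hzP, hzW⟩, hzG1⟩
  · -- `Q`
    rintro z hz hzW hzQ
    rcases hzW with hzΩ | hzS
    · exact Or.inl ⟨s.hQ z hz (hΩW z hzΩ) hzQ, hzΩ⟩
    · right
      have hzS' := subset_closure hzS
      have hzH1 := aQ z hz hzS' hzQ
      refine ⟨?_, hzS⟩
      by_cases hzO : z ∈ O2
      · exact Or.inl (Or.inr ⟨hzH1, hzO⟩)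
      · have hzW := aW z hz hzS' hzO
        exact Or.inr ⟨⟨s.hQ z hz hzW hzQ, hzW⟩, hzH1⟩
  · -- the remainder
    rintro z hz hzW hzG hzH
    rcases hzW with hzΩ | hzS
    · left; left
      exact s.rest z hz (hΩW z hzΩ) (fun h => hzG (Or.inl ⟨h, hzΩ⟩))
        (fun h => hzH (Or.inl ⟨h, hzΩ⟩))
    · have hzS' := subset_closure hzS
      obtain ⟨b1, b2, b3⟩ := a0 z hz hzS'
      by_cases h1 : z ∈ O1
      · have h2 : z ∉ O2 := fun h2 => aO z hz hzS' h1 h2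
        have hzW := aW z hz hzS' h2
        left; left
        exact s.rest z hz hzW (fun h => hzG (Or.inr ⟨Or.inl (Or.inl ⟨⟨h, hzW⟩, h1⟩), hzS⟩))
          (fun h => hzH (Or.inr ⟨Or.inl (Or.inl ⟨⟨h, hzW⟩, h1⟩), hzS⟩))
      · by_cases h2 : z ∈ O2
        · left; right
          apply r1
          refine ⟨⟨b1, b2⟩, ?_⟩
          rintro (h | h)
          · exact hzG (Or.inr ⟨Or.inl (Or.inr ⟨h, h2⟩), hzS⟩)
          · exact hzH (Or.inr ⟨Or.inl (Or.inr ⟨h, h2⟩), hzS⟩)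
        · right
          apply r2
          exact ⟨⟨b1, b3⟩, fun h => h.elim h1 h2⟩
  · exact fun z hz => hWW' (Or.inr hz)
  · exact fun z hz => hWW' (Or.inl hz)
  · intro z hz hzW
    have hzΩ : z ∈ Ω := hWΩ (subset_closure hzW)
    constructor
    · rintro (⟨h, -⟩ | ⟨h, hzS⟩)
      · exact h
      · have h1 := hΩO z hz hzS hzΩ
        rcases h with (⟨⟨h, -⟩, -⟩ | ⟨-, h⟩) | ⟨⟨h, -⟩, -⟩
        · exact h
        · exact (aO z hz (subset_closure hzS) h1 h).elim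
        · exact h
    · intro h
      exact Or.inl ⟨h, hzΩ⟩
  · intro z hz hzW
    have hzΩ : z ∈ Ω := hWΩ (subset_closure hzW)
    constructor
    · rintro (⟨h, -⟩ | ⟨h, hzS⟩)
      · exact h
      · have h1 := hΩO z hz hzS hzΩ
        rcases h with (⟨⟨h, -⟩, -⟩ | ⟨-, h⟩) | ⟨⟨h, -⟩, -⟩
        · exact h
        · exact (aO z hz (subset_closure hzS) h1 h).elim
        · exact h
    · intro h
      exact Or.inl ⟨h, hzΩ⟩

/-- The trivial partial partition. -/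
def PState.trivial' (K : ℕ) (F P Q : Set (X × Y)) : PState K F P Q where
  W := ∅
  W' := ∅
  G := ∅
  H := ∅
  T := ∅
  hW := isOpen_empty
  hW' := isOpen_empty
  hWW := by simp
  hG := isOpen_empty
  hH := isOpen_empty
  disj := fun _ _ h => h.elim
  hP := fun _ _ h => h.elim
  hQ := fun _ _ h => h.elim
  hT := fun _ => ⟨univ, isOpen_univ, trivial, TameOn.empty K univ⟩
  rest := fun _ _ h => h.elim

/-- Main induction in the sigma-locally compact case. -/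
theorem sigma_core [T2Space X] [ParacompactSpace X] [T4Space Y] [NormalSpace (X × Y)]
    (hX : FiniteSumInd X) (hY : FiniteSumInd Y) (E : ℕ → Set X) (hE : ∀ i, IsClosed (E i))
    (hEc : ∀ i, LocallyCompactSpace ↥(E i)) (hEu : (⋃ i, E i) = univ) :
    ∀ (K : ℕ) (F : Set (X × Y)), IsClosed F →
      (∀ i, ∃ W T : Set (X × Y), IsOpen W ∧ E i ×ˢ univ ⊆ W ∧ Tame K T ∧ F ∩ W ⊆ T) →
      SInd K F := by
  intro K
  induction K with
  | zero =>
    intro F _ h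
    show F = ∅
    rw [← subset_empty_iff]
    intro z hz
    have hz1 : z.1 ∈ ⋃ i, E i := by rw [hEu]; trivial
    obtain ⟨i, hi⟩ := mem_iUnion.mp hz1
    obtain ⟨W, T, hW, hEW, hT, hFW⟩ := h i
    have := hFW ⟨hz, hEW ⟨hi, trivial⟩⟩
    rw [hT.eq_empty] at this
    exact this
  | succ K ih =>
    intro F hF h P Q hP hQ hPQ
    choose Wh Th hWh hEW hTh hFT using h
    have hstep := fun (i : ℕ) (s : PState K F P Q) =>
      s.step hX hY hF hP hQ hPQ (hE i) (hEc i) (hWh i) (hEW i) (hTh i) (hFT i)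
    choose next n1 n2 n3 n4 using hstep
    let f : ℕ → PState K F P Q := fun n => Nat.rec (PState.trivial' K F P Q) next n
    have hf : ∀ n, f (n + 1) = next n (f n) := fun n => rfl
    have m1 : ∀ n, E n ×ˢ univ ⊆ (f (n + 1)).W' := fun n => by rw [hf]; exact n1 _ _
    have m2 : ∀ i j, i ≤ j → (f i).W' ⊆ (f j).W' := by
      intro i j hij
      induction j, hij using Nat.le_induction with
      | base => exact subset_rfl
      | succ k _ ih' =>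
        refine ih'.trans ?_
        rw [hf]
        exact subset_closure.trans (n2 _ _)
    have m3 : ∀ i j, i ≤ j → ∀ z ∈ F, z ∈ (f i).W' → (z ∈ (f j).G ↔ z ∈ (f i).G) := by
      intro i j hij z hz hzW
      induction j, hij using Nat.le_induction with
      | base => exact Iff.rfl
      | succ k hk ih' =>
        rw [← ih', hf]
        exact n3 _ _ z hz (m2 i k hk hzW)
    have m4 : ∀ i j, i ≤ j → ∀ z ∈ F, z ∈ (f i).W' → (z ∈ (f j).H ↔ z ∈ (f i).H) := by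
      intro i j hij z hz hzW
      induction j, hij using Nat.le_induction with
      | base => exact Iff.rfl
      | succ k hk ih' =>
        rw [← ih', hf]
        exact n4 _ _ z hz (m2 i k hk hzW)
    have m5 : ∀ i, (f i).W' ⊆ (f i).W := fun i => subset_closure.trans (f i).hWW
    have m6 : ∀ z : X × Y, ∃ i, z ∈ (f i).W' := by
      intro z
      have hz1 : z.1 ∈ ⋃ i, E i := by rw [hEu]; trivial
      obtain ⟨i, hi⟩ := mem_iUnion.mp hz1
      exact ⟨i + 1, m1 i ⟨hi, trivial⟩⟩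
    have hGo : IsOpen (⋃ i, ((f i).G ∩ (f i).W')) :=
      isOpen_iUnion fun i => (f i).hG.inter (f i).hW'
    have hHo : IsOpen (⋃ i, ((f i).H ∩ (f i).W')) :=
      isOpen_iUnion fun i => (f i).hH.inter (f i).hW'
    refine ⟨⋃ i, ((f i).G ∩ (f i).W'), ⋃ i, ((f i).H ∩ (f i).W'), hGo, hHo, ?_, ?_, ?_, ?_⟩
    · rintro z ⟨hz, hzP⟩
      obtain ⟨i, hi⟩ := m6 z
      exact mem_iUnion.mpr ⟨i, (f i).hP z hz (m5 i hi) hzP, hi⟩
    · rintro z ⟨hz, hzQ⟩
      obtain ⟨i, hi⟩ := m6 z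
      exact mem_iUnion.mpr ⟨i, (f i).hQ z hz (m5 i hi) hzQ, hi⟩
    · rw [← subset_empty_iff]
      rintro z ⟨⟨hz, hzG⟩, hzH⟩
      obtain ⟨i, hiG, hi⟩ := mem_iUnion.mp hzG
      obtain ⟨j, hjH, hj⟩ := mem_iUnion.mp hzH
      rcases le_total i j with hij | hij
      · exact (f j).disj z hz (m5 j hj) ((m3 i j hij z hz hi).mpr hiG) hjH
      · exact (f i).disj z hz (m5 i hi) hiG ((m4 j i hij z hz hj).mpr hjH)
    · apply ih
      · rw [Set.sdiff_eq]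
        exact hF.inter (hGo.union hHo).isClosed_compl
      · intro i
        refine ⟨(f (i + 1)).W', (f (i + 1)).T, (f (i + 1)).hW', m1 i, (f (i + 1)).hT, ?_⟩
        rintro z ⟨⟨hz, hzGH⟩, hzW⟩
        refine (f (i + 1)).rest z hz (m5 (i + 1) hzW) (fun hG => ?_) (fun hH => ?_)
        · exact hzGH (Or.inl (mem_iUnion.mpr ⟨i + 1, hG, hzW⟩))
        · exact hzGH (Or.inr (mem_iUnion.mpr ⟨i + 1, hH, hzW⟩))

/-- The product inequality when `X` is paracompact and sigma-locally compact. -/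
theorem ind_prod_le_of_sigma (hne : Nonempty X ∨ Nonempty Y) (hXY : T4Space (X × Y))
    (hT2 : T2Space X) (hpc : ParacompactSpace X) (hσ : SigmaLocallyCompact X)
    (hX : FiniteSumInd X) (hY : FiniteSumInd Y) :
    Ind (X × Y) ≤ Ind X + Ind Y := by
  refine ind_prod_le hne ?_
  intro m n h1 h2 hm hn
  have := t4_right hXY h2 h1
  rw [← sind_univ_iff]
  obtain ⟨E, hE, hEc, hEu⟩ := hσ
  refine sigma_core hX hY E hE hEc hEu (m + n + 1) univ isClosed_univ ?_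
  intro i
  refine ⟨univ, univ, isOpen_univ, subset_univ _, ?_, subset_univ _⟩
  intro x
  refine ⟨univ, isOpen_univ, trivial, PUnit, inferInstance, fun _ => PUnit.unit,
    continuous_const, fun y => ⟨univ, isOpen_univ, trivial, small_univ hm hn _⟩⟩

end Pool.Agent.Helper84.IndDim
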