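import Pool.Agent.Helper84.Glue

/-!
Partitions of tame sets near `C × Y`, first for compact `C`, then for closed locally compact `C`.
-/

open Set Topology

universe u v w

namespace Pool.Agent.Helper84.IndDim

variable {X : Type u} {Y : Type v} [TopologicalSpace X] [TopologicalSpace Y]

/-- A continuous function on `X × Y` is controlled over a compact set `C` by a continuous map
from `Y` to a metric space. -/
theorem exists_metric_control {C : Set X} (hC : IsCompact C) (φ : C(X × Y, ℝ)) :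
    ∃ (D : Type u) (_ : MetricSpace D) (Φ : Y → D), Continuous Φ ∧
      ∀ x ∈ C, ∀ y y' : Y, |φ (x, y) - φ (x, y')| ≤ dist (Φ y) (Φ y') := by
  have : CompactSpace ↥C := isCompact_iff_compactSpace.mp hC
  let φ' : C(Y × ↥C, ℝ) := ⟨fun p => φ (p.2.1, p.1),
    φ.continuous.comp ((continuous_subtype_val.comp continuous_snd).prodMk continuous_fst)⟩
  refine ⟨C(↥C, ℝ), inferInstance, fun y => ContinuousMap.curry φ' y,
    (ContinuousMap.curry φ').continuous, ?_⟩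
  intro x hx y y'
  have := ContinuousMap.dist_apply_le_dist (f := ContinuousMap.curry φ' y)
    (g := ContinuousMap.curry φ' y') (⟨x, hx⟩ : ↥C)
  rw [Real.dist_eq] at this
  exact this

/-- The metric quotient of `Y` adapted to a tame set and a function, over a compact set. -/
theorem exists_metric_quotient (hX : FiniteSumInd X)
    (hY : FiniteSumInd Y) {K : ℕ} {T : Set (X × Y)} (hT : Tame K T) {C : Set X}
    (hC : IsCompact C) (φ : C(X × Y, ℝ)) {ε : ℝ} (hε : 0 < ε) :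
    ∃ (O : Set X) (M : Type u) (_ : MetricSpace M) (g : Y → M) (V : Y → Set M),
      IsOpen O ∧ C ⊆ O ∧ Continuous g ∧ Function.Surjective g ∧ (∀ y, IsOpen (V y)) ∧
      (∀ y, g y ∈ V y) ∧ (∀ y, Small K (T ∩ O ×ˢ (g ⁻¹' (V y)))) ∧
      ∀ y y', g y' ∈ closure (V y) → ∀ x ∈ C, |φ (x, y') - φ (x, y)| ≤ ε := by
  obtain ⟨O, hO, hCO, M, hM, g, hg, hs⟩ := hT.onCompact hX hY hC
  choose B hB hyB hSm using hs
  obtain ⟨D, hD, Φ, hΦ, hφ⟩ := exists_metric_control hC φ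
  have hg1 : Continuous (fun y => (g y, Φ y)) := hg.prodMk hΦ
  refine ⟨O, ↥(range (fun y => (g y, Φ y))), inferInstance,
    fun y => ⟨(g y, Φ y), mem_range_self y⟩,
    fun y => {m | m.1.1 ∈ B y ∧ dist m.1.2 (Φ y) < ε}, hO, hCO, hg1.subtype_mk _, ?_, ?_, ?_, ?_,
    ?_⟩
  · rintro ⟨_, y, rfl⟩
    exact ⟨y, rfl⟩
  · intro y
    refine ((hB y).preimage (continuous_fst.comp continuous_subtype_val)).inter ?_
    exact isOpen_lt ((continuous_snd.comp continuous_subtype_val).dist continuous_const)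
      continuous_const
  · intro y
    refine ⟨hyB y, ?_⟩
    show dist (Φ y) (Φ y) < ε
    rw [dist_self]
    exact hε
  · intro y
    refine (hSm y).mono ?_
    rintro p ⟨hp, hpO, hpV⟩
    exact ⟨hp, hpO, hpV.1⟩
  · intro y y' hy' x hx
    have hcl : closure {m : ↥(range (fun y => (g y, Φ y))) | m.1.1 ∈ B y ∧
        dist m.1.2 (Φ y) < ε} ⊆ {m | dist m.1.2 (Φ y) ≤ ε} := by
      refine closure_minimal (fun m hm => hm.2.le) ?_
      exact isClosed_le ((continuous_snd.comp continuous_subtype_val).dist continuous_const)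
        continuous_const
    exact (hφ x hx y' y).trans (hcl hy')

/-- Partition of a tame set near `C × Y` with `C` compact. -/
theorem compact_stage [T4Space X] [T4Space Y] [NormalSpace (X × Y)] (hX : FiniteSumInd X)
    (hY : FiniteSumInd Y) {K : ℕ} {T : Set (X × Y)} (hT : Tame (K + 1) T) {C : Set X}
    (hC : IsCompact C) {P Q : Set (X × Y)} (hP : IsClosed P) (hQ : IsClosed Q)
    (hPQ : Disjoint P Q) :
    ∃ S G H T' : Set (X × Y), IsOpen S ∧ C ×ˢ univ ⊆ S ∧ IsOpen G ∧ IsOpen H ∧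
      T ∩ S ∩ G ∩ H = ∅ ∧ T ∩ S ∩ P ⊆ G ∧ T ∩ S ∩ Q ⊆ H ∧ TameOn K univ T' ∧
      (T ∩ S) \ (G ∪ H) ⊆ T' := by
  classical
  obtain ⟨φ, hφP, hφQ, -⟩ := exists_continuous_zero_one_of_isClosed hP hQ hPQ
  obtain ⟨O, M2, hM2, g2, V, hO, hCO, hg2, hsurj, hVo, hyV, hSm, hVφ⟩ :=
    exists_metric_quotient hX hY hT hC φ (ε := 1 / 8) (by norm_num)
  have hVc : ⋃ y, V y = univ := by
    rw [eq_univ_iff_forall]
    intro m
    obtain ⟨y, rfl⟩ := hsurj m
    exact mem_iUnion.mpr ⟨y, hyV y⟩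
  obtain ⟨V1, hV1o, hV1c, hV1f, hV1s⟩ := precise_refinement V hVo hVc
  obtain ⟨V2, hV2c, hV2o, hV2s⟩ := exists_iUnion_eq_closure_subset hV1o
    (fun x => hV1f.point_finite x) hV1c
  -- neighbourhoods in `X`
  have hU : ∀ (y : Y) (x : ↥C), ∃ U U' : Set X, IsOpen U ∧ IsOpen U' ∧ x.1 ∈ U' ∧
      closure U' ⊆ U ∧ U ⊆ O ∧ ∀ x' ∈ closure U, |φ (x', y) - φ (x.1, y)| < 1 / 8 := by
    intro y x
    have hAo : IsOpen (O ∩ {x' | |φ (x', y) - φ (x.1, y)| < 1 / 8}) := by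
      refine hO.inter (isOpen_lt ?_ continuous_const)
      exact ((φ.continuous.comp (continuous_id.prodMk continuous_const)).sub
        continuous_const).abs
    obtain ⟨U, hU, hxU, hUA⟩ := normal_exists_closure_subset (isClosed_singleton (x := x.1)) hAo
      (singleton_subset_iff.mpr ⟨hCO x.2, by
        show |φ (x.1, y) - φ (x.1, y)| < 1 / 8
        rw [sub_self, abs_zero]; norm_num⟩)
    obtain ⟨U', hU', hxU', hUU'⟩ := normal_exists_closure_subset (isClosed_singleton (x := x.1)) hU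
      hxU
    exact ⟨U, U', hU, hU', singleton_subset_iff.mp hxU', hUU',
      fun a ha => (hUA (subset_closure ha)).1, fun a ha => (hUA ha).2⟩
  choose U U' hUo hUo' hxU' hUU' hUO hUφ using hU
  have hJ : ∀ y : Y, ∃ J : Finset ↥C, C ⊆ ⋃ x ∈ J, U' y x := by
    intro y
    refine hC.elim_finite_subcover (U' y) (hUo' y) ?_
    intro x hx
    exact mem_iUnion.mpr ⟨⟨x, hx⟩, hxU' y ⟨x, hx⟩⟩
  choose J hJ using hJ
  let ι := Σ y : Y, ↥(J y)
  let UU : ι → Set X := fun i => U i.1 i.2.1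
  let UU' : ι → Set X := fun i => U' i.1 i.2.1
  let W : ι → Set Y := fun i => g2 ⁻¹' (V1 i.1)
  let W' : ι → Set Y := fun i => g2 ⁻¹' (V2 i.1)
  let R : ι → Set (X × Y) := fun i => closure (UU i) ×ˢ closure (W i)
  have hloc : ∀ i : ι, ∃ N M : Set (X × Y), IsOpen N ∧ IsOpen M ∧ T ∩ N ∩ M = ∅ ∧
      T ∩ UU' i ×ˢ W' i ⊆ N ∧ (closure (UU i) ×ˢ closure (W i))ᶜ ⊆ M ∧
      Small K (T \ (N ∪ M)) := by
    intro i
    refine local_partition hX hY (hUo _ _) ((hV1o _).preimage hg2) (hUU' _ _) ?_ ?_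
    · intro y hy
      exact hV2s _ (hg2.closure_preimage_subset _ hy)
    · refine (hSm i.1).mono ?_
      rintro p ⟨hp, hpU, hpW⟩
      exact ⟨hp, hUO _ _ hpU, hV1s _ hpW⟩
  choose N M' hNo hMo hNM hN hRM hSmN using hloc
  -- the estimate
  have hest : ∀ (i : ι) (z : X × Y), z ∈ R i → z.1 ∈ C →
      |φ z - φ (i.2.1.1, i.1)| ≤ 1 / 4 := by
    rintro ⟨y0, ⟨x1, hx1⟩⟩ ⟨x', y'⟩ ⟨hz1, hz2⟩ hzC
    have h1 : |φ (x', y0) - φ (x1.1, y0)| < 1 / 8 := hUφ y0 x1 x' hz1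
    have h3 : |φ (x', y') - φ (x', y0)| ≤ 1 / 8 :=
      hVφ y0 y' (closure_mono (hV1s y0) (hg2.closure_preimage_subset _ hz2)) x' hzC
    have h4 : φ (x', y') - φ (x1.1, y0) =
        (φ (x', y') - φ (x', y0)) + (φ (x', y0) - φ (x1.1, y0)) := by ring
    show |φ (x', y') - φ (x1.1, y0)| ≤ 1 / 4
    rw [h4]
    refine (abs_add_le _ _).trans ?_
    linarith
  -- types
  let b : ι → Prop := fun i => 1 / 2 ≤ φ (i.2.1.1, i.1)
  let Bad : ι → Set (X × Y) := fun i => R i ∩ (if b i then P else Q)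
  have hRcl : ∀ i, IsClosed (R i) := fun i => isClosed_closure.prod isClosed_closure
  -- local finiteness
  have hfin : ∀ y : Y, ∃ t : Set M2, IsOpen t ∧ g2 y ∈ t ∧
      {i : ι | (R i ∩ univ ×ˢ (g2 ⁻¹' t)).Nonempty}.Finite := by
    intro y
    obtain ⟨t0, ht0, hft0⟩ := hV1f (g2 y)
    obtain ⟨t, htt0, hto, hyt⟩ := mem_nhds_iff.mp ht0
    refine ⟨t, hto, hyt, ?_⟩
    have hsub : {i : ι | (R i ∩ univ ×ˢ (g2 ⁻¹' t)).Nonempty} ⊆
        ⋃ y0 ∈ {y0 | (V1 y0 ∩ t0).Nonempty}, range (fun x : ↥(J y0) => (⟨y0, x⟩ : ι)) := by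
      rintro ⟨y0, x⟩ ⟨p, hpR, -, hpt⟩
      have : (W ⟨y0, x⟩ ∩ g2 ⁻¹' t).Nonempty := by
        obtain ⟨q, hq1, hq2⟩ := mem_closure_iff.mp hpR.2 (g2 ⁻¹' t) (hto.preimage hg2) hpt
        exact ⟨q, hq2, hq1⟩
      obtain ⟨q, hq1, hq2⟩ := this
      exact mem_biUnion (show y0 ∈ {y0 | (V1 y0 ∩ t0).Nonempty} from ⟨g2 q, hq1, htt0 hq2⟩)
        (mem_range_self x)
    refine Set.Finite.subset ?_ hsub
    exact hft0.biUnion fun y0 _ => finite_range _
  have hRf : LocallyFinite R := by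
    rintro ⟨x, y⟩
    obtain ⟨t, hto, hyt, hf⟩ := hfin y
    refine ⟨univ ×ˢ (g2 ⁻¹' t), ?_, hf⟩
    exact (isOpen_univ.prod (hto.preimage hg2)).mem_nhds ⟨trivial, hyt⟩
  have hBadcl : IsClosed (⋃ i, Bad i) := by
    refine (hRf.subset fun i => inter_subset_left).isClosed_iUnion fun i => ?_
    refine (hRcl i).inter ?_
    split_ifs
    · exact hP
    · exact hQ
  let S : Set (X × Y) := (⋃ i, UU' i ×ˢ W' i) ∩ (⋃ i, Bad i)ᶜ
  have hSo : IsOpen S := by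
    refine IsOpen.inter (isOpen_iUnion fun i => ?_) hBadcl.isOpen_compl
    exact (hUo' _ _).prod ((hV2o _).preimage hg2)
  have hCS : C ×ˢ univ ⊆ S := by
    rintro ⟨x, y⟩ ⟨hx, -⟩
    constructor
    · have hy2 : g2 y ∈ ⋃ y0, V2 y0 := by rw [hV2c]; trivial
      obtain ⟨y0, hy0⟩ := mem_iUnion.mp hy2
      obtain ⟨x0, hx0⟩ := mem_iUnion.mp (hJ y0 hx)
      obtain ⟨hx0J, hx0'⟩ := mem_iUnion.mp hx0
      exact mem_iUnion.mpr ⟨⟨y0, ⟨x0, hx0J⟩⟩, hx0', hy0⟩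
    · intro hbad
      obtain ⟨i, hiR, hib⟩ := mem_iUnion.mp hbad
      have hE := hest i (x, y) hiR hx
      rw [abs_le] at hE
      by_cases hbi : b i
      · rw [if_pos hbi] at hib
        have h0 : φ (x, y) = 0 := hφP hib
        have h1 : 1 / 2 ≤ φ (i.2.1.1, i.1) := hbi
        linarith [hE.1]
      · rw [if_neg hbi] at hib
        have h0 : φ (x, y) = 1 := hφQ hib
        have h1 : φ (i.2.1.1, i.1) < 1 / 2 := not_le.mp hbi
        linarith [hE.2]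
  have hnoBad : ∀ i, ∀ z ∈ S, z ∈ Bad i → False :=
    fun i z hz hzb => hz.2 (mem_iUnion.mpr ⟨i, hzb⟩)
  obtain ⟨G', H', hG', hH', h1, h2, h3, h4⟩ := glue (T ∩ S) P Q R N M'
    (fun i => if b i then ∅ else univ) (fun i => if b i then univ else ∅) hRf hNo hMo
    (fun i => by split_ifs <;> simp) (fun i => by split_ifs <;> simp) hRM
    (fun i => by
      rw [← subset_empty_iff, ← hNM i]
      rintro z ⟨⟨⟨hz, -⟩, hzN⟩, hzM⟩
      exact ⟨⟨hz, hzN⟩, hzM⟩)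
    (fun i => by split_ifs <;> simp)
    (by
      rintro z ⟨hz, hzS⟩
      obtain ⟨i, hi⟩ := mem_iUnion.mp hzS.1
      exact mem_iUnion.mpr ⟨i, hN i ⟨hz, hi⟩⟩)
    (by
      rintro i z ⟨⟨hz, hzR⟩, hzP⟩
      split_ifs with hbi
      · exact (hnoBad i z hz.2 ⟨hzR, by rw [if_pos hbi]; exact hzP⟩).elim
      · trivial)
    (by
      rintro i z ⟨⟨hz, hzR⟩, hzQ⟩
      split_ifs with hbi
      · trivial
      · exact (hnoBad i z hz.2 ⟨hzR, by rw [if_neg hbi]; exact hzQ⟩).elim)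
  refine ⟨S, G', H', ⋃ i, (T \ (N i ∪ M' i)), hSo, hCS, hG', hH', h1, h2, h3, ?_, ?_⟩
  · refine ⟨M2, inferInstance, g2, hg2, fun y => ?_⟩
    obtain ⟨t, hto, hyt, hf⟩ := hfin y
    refine ⟨t, hto, hyt, ?_⟩
    refine (Small.biUnion_finite hX hY hf (T := fun i => T \ (N i ∪ M' i))
      (fun i _ => hSmN i)).mono ?_
    rintro z ⟨hz, hzt⟩
    obtain ⟨i, hi⟩ := mem_iUnion.mp hz
    refine mem_biUnion (show i ∈ {i : ι | (R i ∩ univ ×ˢ (g2 ⁻¹' t)).Nonempty} from ?_) hi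
    refine ⟨z, ?_, hzt⟩
    by_contra hzR
    exact hi.2 (Or.inr (hRM i hzR))
  · refine h4.trans ?_
    intro z hz
    obtain ⟨i, hiR, hi⟩ := mem_iUnion.mp hz
    refine mem_iUnion.mpr ⟨i, ?_⟩
    rcases hi with hi | hi
    · exact ⟨hi.1.1, hi.2⟩
    · exfalso
      apply hi.2
      by_cases hbi : b i
      · right
        rw [if_pos hbi]
        trivial
      · left
        rw [if_neg hbi]
        trivial

/-- Every point has a neighbourhood whose closure meets a closed locally compact set in a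
compact set. -/
theorem exists_nhd_compact_inter [RegularSpace X] {E : Set X} (hE : IsClosed E)
    (hEc : LocallyCompactSpace ↥E) (x : X) :
    ∃ O : Set X, IsOpen O ∧ x ∈ O ∧ IsCompact (E ∩ closure O) := by
  by_cases hx : x ∈ E
  · obtain ⟨C, hC, hxC⟩ := exists_compact_mem_nhds (⟨x, hx⟩ : ↥E)
    rw [nhds_subtype_eq_comap, Filter.mem_comap] at hxC
    obtain ⟨t, ht, htC⟩ := hxC
    obtain ⟨O', hO'x, hO', hO't⟩ := exists_mem_nhds_isClosed_subset ht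
    obtain ⟨O, hOO', hO, hxO⟩ := mem_nhds_iff.mp hO'x
    refine ⟨O, hO, hxO, ?_⟩
    have h1 : IsCompact (Subtype.val '' C) := hC.image continuous_subtype_val
    refine h1.of_isClosed_subset (hE.inter isClosed_closure) ?_
    rintro a ⟨haE, haO⟩
    have haO' : a ∈ O' := by
      have := closure_mono hOO' haO
      rwa [hO'.closure_eq] at this
    exact ⟨⟨a, haE⟩, htC (hO't haO'), rfl⟩
  · obtain ⟨O', hO'x, hO', hO't⟩ := exists_mem_nhds_isClosed_subset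
      (hE.isOpen_compl.mem_nhds hx)
    obtain ⟨O, hOO', hO, hxO⟩ := mem_nhds_iff.mp hO'x
    refine ⟨O, hO, hxO, ?_⟩
    have : E ∩ closure O = ∅ := by
      rw [← subset_empty_iff]
      rintro a ⟨haE, haO⟩
      have := closure_mono hOO' haO
      rw [hO'.closure_eq] at this
      exact hO't this haE
    rw [this]
    exact isCompact_empty

/-- Partition of a tame set near `E × Y` with `E` closed and locally compact. -/
theorem loc_stage [T2Space X] [ParacompactSpace X] [T4Space Y] [NormalSpace (X × Y)]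
    (hX : FiniteSumInd X) (hY : FiniteSumInd Y) {K : ℕ} {T : Set (X × Y)}
    (hT : Tame (K + 1) T) {E : Set X} (hE : IsClosed E) (hEc : LocallyCompactSpace ↥E)
    {P Q : Set (X × Y)} (hP : IsClosed P) (hQ : IsClosed Q) (hPQ : Disjoint P Q) :
    ∃ S G H T' : Set (X × Y), IsOpen S ∧ E ×ˢ univ ⊆ S ∧ IsOpen G ∧ IsOpen H ∧
      T ∩ S ∩ G ∩ H = ∅ ∧ T ∩ S ∩ P ⊆ G ∧ T ∩ S ∩ Q ⊆ H ∧ Tame K T' ∧
      (T ∩ S) \ (G ∪ H) ⊆ T' := by
  choose O hO hxO hOc using exists_nhd_compact_inter hE hEc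
  obtain ⟨U, hU, hUc, hUf, hUO⟩ := precise_refinement O hO (by
    rw [eq_univ_iff_forall]
    exact fun x => mem_iUnion.mpr ⟨x, hxO x⟩)
  obtain ⟨U', hU'c, hU', hUU'⟩ := exists_iUnion_eq_closure_subset hU
    (fun x => hUf.point_finite x) hUc
  have hC : ∀ s, IsCompact (E ∩ closure (U s)) := by
    intro s
    exact (hOc s).of_isClosed_subset (hE.inter isClosed_closure)
      (inter_subset_inter_right _ (closure_mono (hUO s)))
  have h1 := fun s => compact_stage hX hY hT (hC s) hP hQ hPQ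
  have h2 := fun s => compact_stage hX hY hT (hC s)
    (P := closure (U' s) ×ˢ univ) (Q := (U s)ᶜ ×ˢ univ)
    (isClosed_closure.prod isClosed_univ) ((hU s).isClosed_compl.prod isClosed_univ) (by
      rw [Set.disjoint_left]
      rintro z ⟨hz, -⟩ ⟨hz', -⟩
      exact hz' (hUU' s hz))
  choose S1 G1 H1 T1 hS1 hCS1 hG1 hH1 hd1 hP1 hQ1 hT1 hL1 using h1
  choose S2 N2 M2 T2 hS2 hCS2 hN2 hM2 hd2 hP2 hQ2 hT2 hL2 using h2
  let R : X → Set (X × Y) := fun s => closure (U s) ×ˢ univ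
  have hRcl : ∀ s, IsClosed (R s) := fun s => isClosed_closure.prod isClosed_univ
  have hRf : LocallyFinite R := by
    rintro ⟨x, y⟩
    obtain ⟨t, ht, hf⟩ := hUf.closure x
    refine ⟨t ×ˢ univ, prod_mem_nhds ht Filter.univ_mem, hf.subset ?_⟩
    rintro s ⟨p, hp1, hp2⟩
    exact ⟨p.1, hp1.1, hp2.1⟩
  have hBcl : IsClosed (⋃ s, R s ∩ (S1 s ∩ S2 s)ᶜ) := by
    refine (hRf.subset fun i => inter_subset_left).isClosed_iUnion fun s => ?_
    exact (hRcl s).inter ((hS1 s).inter (hS2 s)).isClosed_compl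
  let S : Set (X × Y) := (⋃ s, R s ∩ (S1 s ∩ S2 s)ᶜ)ᶜ
  have hSR : ∀ s z, z ∈ S → z ∈ R s → z ∈ S1 s ∧ z ∈ S2 s := by
    intro s z hz hzR
    by_contra h
    exact hz (mem_iUnion.mpr ⟨s, hzR, h⟩)
  have hE1 : ∀ s z, z ∈ T → z ∈ S1 s → z ∈ G1 s → z ∈ H1 s → False := by
    intro s z hz hzS hzG hzH
    have : z ∈ T ∩ S1 s ∩ G1 s ∩ H1 s := ⟨⟨⟨hz, hzS⟩, hzG⟩, hzH⟩
    rw [hd1] at this
    exact this
  have hE2 : ∀ s z, z ∈ T → z ∈ S2 s → z ∈ N2 s → z ∈ M2 s → False := by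
    intro s z hz hzS hzG hzH
    have : z ∈ T ∩ S2 s ∩ N2 s ∩ M2 s := ⟨⟨⟨hz, hzS⟩, hzG⟩, hzH⟩
    rw [hd2] at this
    exact this
  obtain ⟨G', H', hG', hH', k1, k2, k3, k4⟩ := glue (T ∩ S) P Q R
    (fun s => N2 s ∩ (U s) ×ˢ univ) (fun s => M2 s ∪ (R s)ᶜ) G1 H1 hRf
    (fun s => (hN2 s).inter ((hU s).prod isOpen_univ))
    (fun s => (hM2 s).union (hRcl s).isOpen_compl) hG1 hH1
    (fun s => subset_union_right)
    (fun s => by
      rw [← subset_empty_iff]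
      rintro z ⟨⟨⟨hz, hzS⟩, hzN, hzU⟩, hzM⟩
      have hzR : z ∈ R s := ⟨subset_closure hzU.1, trivial⟩
      rcases hzM with hzM | hzM
      · exact hE2 s z hz (hSR s z hzS hzR).2 hzN hzM
      · exact hzM hzR)
    (fun s => by
      rw [← subset_empty_iff]
      rintro z ⟨⟨⟨⟨hz, hzS⟩, hzR⟩, hzG⟩, hzH⟩
      exact hE1 s z hz (hSR s z hzS hzR).1 hzG hzH)
    (by
      rintro z ⟨hz, hzS⟩
      have : z.1 ∈ ⋃ s, U' s := by rw [hU'c]; trivial
      obtain ⟨s, hs⟩ := mem_iUnion.mp this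
      have hzU : z.1 ∈ U s := hUU' s (subset_closure hs)
      refine mem_iUnion.mpr ⟨s, hP2 s ⟨⟨hz, ?_⟩, subset_closure hs, trivial⟩, hzU, trivial⟩
      exact (hSR s z hzS ⟨subset_closure hzU, trivial⟩).2)
    (by
      rintro s z ⟨⟨⟨hz, hzS⟩, hzR⟩, hzP⟩
      exact hP1 s ⟨⟨hz, (hSR s z hzS hzR).1⟩, hzP⟩)
    (by
      rintro s z ⟨⟨⟨hz, hzS⟩, hzR⟩, hzQ⟩
      exact hQ1 s ⟨⟨hz, (hSR s z hzS hzR).1⟩, hzQ⟩)
  refine ⟨S, G', H', ⋃ s, (R s ∩ (T1 s ∪ T2 s)), hBcl.isOpen_compl, ?_, hG', hH', k1, k2, k3,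
    ?_, ?_⟩
  · rintro z ⟨hz, -⟩ hzB
    obtain ⟨s, hzR, hzS⟩ := mem_iUnion.mp hzB
    apply hzS
    have hzC : z ∈ (E ∩ closure (U s)) ×ˢ (univ : Set Y) := ⟨⟨hz, hzR.1⟩, trivial⟩
    exact ⟨hCS1 s hzC, hCS2 s hzC⟩
  · refine Tame.of_locallyFinite hX hY hUf.closure (T := fun s => R s ∩ (T1 s ∪ T2 s))
      (fun s => ?_) (fun s => inter_subset_left)
    exact ((hT1 s).union_set hX hY (hT2 s)).mono subset_rfl inter_subset_right
  · refine k4.trans ?_
    intro z hz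
    obtain ⟨s, hzR, hz⟩ := mem_iUnion.mp hz
    refine mem_iUnion.mpr ⟨s, hzR, ?_⟩
    rcases hz with ⟨⟨hz, hzS⟩, hzNM⟩ | ⟨⟨⟨hz, hzS⟩, -⟩, hzGH⟩
    · right
      have hzM : z ∉ M2 s := fun h => hzNM (Or.inr (Or.inl h))
      have hzS2 := (hSR s z hzS hzR).2
      apply hL2 s
      refine ⟨⟨hz, hzS2⟩, ?_⟩
      rintro (h | h)
      · have hzU : z ∉ (U s) ×ˢ (univ : Set Y) := fun h' => hzNM (Or.inl ⟨h, h'⟩)
        apply hzM
        exact hQ2 s ⟨⟨hz, hzS2⟩, fun h' => hzU ⟨h', trivial⟩, trivial⟩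
      · exact hzM h
    · left
      exact hL1 s ⟨⟨hz, (hSR s z hzS hzR).1⟩, hzGH⟩

end Pool.Agent.Helper84.IndDim
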