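import Pool.Agent.Helper84.Rect

/-!
The strongly paracompact case.
-/

open Set Topology

universe u v w

namespace Pool.Agent.Helper84.IndDim

/-- Star-finite refinements split a strongly paracompact space into open classes each of which is
covered by countably many members of a given open cover. -/
theorem StronglyParacompact.decomp {Z : Type u} [TopologicalSpace Z] (h : StronglyParacompact Z)
    {ι : Type v} (N : ι → Set Z) (hN : ∀ i, IsOpen (N i)) (hcov : ⋃ i, N i = univ) :
    ∃ r : Setoid Z, (∀ z, IsOpen {z' | r z z'}) ∧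
      ∀ z, ∃ s : ℕ → ι, {z' | r z z'} ⊆ ⋃ n, N (s n) := by
  classical
  obtain ⟨𝓥, hVo, hVc, hVr, hVf⟩ := h (range N) (by rintro _ ⟨i, rfl⟩; exact hN i)
    (by rw [sUnion_range]; exact hcov)
  set step : Z → Z → Prop := fun p q => ∃ V ∈ 𝓥, p ∈ V ∧ q ∈ V with hstep
  have hsymm : Std.Symm step := ⟨fun p q ⟨V, hV, hp, hq⟩ => ⟨V, hV, hq, hp⟩⟩
  let r : Setoid Z :=
    { r := Relation.ReflTransGen step
      iseqv := ⟨fun _ => Relation.ReflTransGen.refl,
        fun hxy => by
          induction hxy with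
          | refl => exact Relation.ReflTransGen.refl
          | tail _ hbc ih => exact Relation.ReflTransGen.head (hsymm.symm _ _ hbc) ih,
        fun h1 h2 => h1.trans h2⟩ }
  have hr : ∀ z z', r z z' ↔ Relation.ReflTransGen step z z' := fun _ _ => Iff.rfl
  refine ⟨r, ?_, ?_⟩
  · intro z
    rw [isOpen_iff_mem_nhds]
    intro z' hz'
    have hz1 : z' ∈ ⋃₀ 𝓥 := by rw [hVc]; trivial
    obtain ⟨V, hV, hzV⟩ := hz1
    refine Filter.mem_of_superset ((hVo V hV).mem_nhds hzV) ?_
    intro w hw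
    exact Relation.ReflTransGen.tail hz' ⟨V, hV, hzV, hw⟩
  · intro z
    have hz1 : z ∈ ⋃₀ 𝓥 := by rw [hVc]; trivial
    obtain ⟨V0, hV0, hzV0⟩ := hz1
    let S : ℕ → Set (Set Z) := fun n => Nat.rec {V ∈ 𝓥 | z ∈ V}
      (fun _ T => {V ∈ 𝓥 | ∃ W ∈ T, (W ∩ V).Nonempty}) n
    have hS0 : S 0 = {V ∈ 𝓥 | z ∈ V} := rfl
    have hS1 : ∀ n, S (n + 1) = {V ∈ 𝓥 | ∃ W ∈ S n, (W ∩ V).Nonempty} := fun n => rfl
    have hSV : ∀ n, S n ⊆ 𝓥 := by
      intro n
      cases n with
      | zero => rw [hS0]; exact fun V hV => hV.1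
      | succ n => rw [hS1]; exact fun V hV => hV.1
    have hSf : ∀ n, (S n).Finite := by
      intro n
      induction n with
      | zero =>
        rw [hS0]
        refine (hVf V0 hV0).subset ?_
        rintro V ⟨hV, hzV⟩
        exact ⟨hV, z, hzV0, hzV⟩
      | succ n ih =>
        have : S (n + 1) ⊆ ⋃ W ∈ S n, {V ∈ 𝓥 | (W ∩ V).Nonempty} := by
          rw [hS1]
          rintro V ⟨hV, W, hW, hWV⟩
          exact mem_biUnion hW ⟨hV, hWV⟩
        exact (ih.biUnion fun W hW => hVf W (hSV n hW)).subset this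
    have hreach : ∀ z', Relation.ReflTransGen step z z' → ∃ n, {V ∈ 𝓥 | z' ∈ V} ⊆ S n := by
      intro z' hz'
      induction hz' with
      | refl => exact ⟨0, by rw [hS0]⟩
      | @tail b c _ hbc ih =>
        obtain ⟨n, hn⟩ := ih
        obtain ⟨W, hW, hbW, hcW⟩ := hbc
        refine ⟨n + 1, ?_⟩
        rw [hS1]
        rintro V ⟨hV, hcV⟩
        exact ⟨hV, W, hn ⟨hW, hbW⟩, c, hcW, hcV⟩
    have hcount : (⋃ n, S n).Countable := countable_iUnion fun n => (hSf n).countable
    have hne : (⋃ n, S n).Nonempty := ⟨V0, mem_iUnion.mpr ⟨0, by rw [hS0]; exact ⟨hV0, hzV0⟩⟩⟩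
    obtain ⟨f, hf⟩ := hcount.exists_eq_range hne
    have hfi : ∀ n, ∃ i, f n ⊆ N i := by
      intro n
      have : f n ∈ ⋃ n, S n := by rw [hf]; exact mem_range_self n
      obtain ⟨k, hk⟩ := mem_iUnion.mp this
      obtain ⟨U, ⟨i, rfl⟩, hU⟩ := hVr _ (hSV k hk)
      exact ⟨i, hU⟩
    choose s hs using hfi
    refine ⟨s, ?_⟩
    intro z' hz'
    obtain ⟨n, hn⟩ := hreach z' hz'
    have hz2 : z' ∈ ⋃₀ 𝓥 := by rw [hVc]; trivial
    obtain ⟨V, hV, hzV⟩ := hz2
    have : V ∈ range f := by rw [← hf]; exact mem_iUnion.mpr ⟨n, hn ⟨hV, hzV⟩⟩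
    obtain ⟨k, hk⟩ := this
    exact mem_iUnion.mpr ⟨k, hs k (by rw [hk]; exact hzV)⟩

variable {X : Type u} {Y : Type v} [TopologicalSpace X] [TopologicalSpace Y]

/-- Pointwise partitions of a locally small closed set. -/
theorem point_partition [T4Space X] [T4Space Y] (hX : FiniteSumInd X)
    (hY : FiniteSumInd Y) {K : ℕ} {F : Set (X × Y)} (hF : IsClosed F) {z : X × Y}
    {O W : Set (X × Y)} (hO : IsOpen O) (hzO : z ∈ O) (hS : Small (K + 1) (F ∩ O))
    (hW : IsOpen W) (hzW : z ∈ W) :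
    ∃ N M : Set (X × Y), IsOpen N ∧ IsOpen M ∧ z ∈ N ∧ F ∩ N ∩ M = ∅ ∧ F \ W ⊆ M ∧
      Small K (F \ (N ∪ M)) := by
  obtain ⟨U1, V1, hU1, hV1, hz1, hz2, hUV⟩ := isOpen_prod_iff.mp (hO.inter hW) z.1 z.2
    ⟨hzO, hzW⟩
  obtain ⟨U, hU, hzU, hUc⟩ := normal_exists_closure_subset (isClosed_singleton (x := z.1)) hU1
    (singleton_subset_iff.mpr hz1)
  obtain ⟨V, hV, hzV, hVc⟩ := normal_exists_closure_subset (isClosed_singleton (x := z.2)) hV1
    (singleton_subset_iff.mpr hz2)
  obtain ⟨U', hU', hzU', hUc'⟩ := normal_exists_closure_subset (isClosed_singleton (x := z.1)) hU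
    hzU
  obtain ⟨V', hV', hzV', hVc'⟩ := normal_exists_closure_subset (isClosed_singleton (x := z.2)) hV
    hzV
  have hsub : closure U ×ˢ closure V ⊆ O ∩ W := fun p hp => hUV ⟨hUc hp.1, hVc hp.2⟩
  obtain ⟨N, M, hN, hM, h1, h2, h3, h4⟩ := local_partition hX hY (T := F) hU hV hUc' hVc'
    (hS.mono (by
      rintro p ⟨hp, hpUV⟩
      exact ⟨hp, (hsub ⟨subset_closure hpUV.1, subset_closure hpUV.2⟩).1⟩))
  refine ⟨N ∪ (U' ×ˢ V' ∩ Fᶜ), M, hN.union ((hU'.prod hV').inter hF.isOpen_compl), hM, ?_, ?_,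
    ?_, ?_⟩
  · by_cases hz : z ∈ F
    · left
      exact h2 ⟨hz, singleton_subset_iff.mp hzU', singleton_subset_iff.mp hzV'⟩
    · right
      exact ⟨⟨singleton_subset_iff.mp hzU', singleton_subset_iff.mp hzV'⟩, hz⟩
  · rw [← subset_empty_iff, ← h1]
    rintro p ⟨⟨hp, hpN | hpN⟩, hpM⟩
    · exact ⟨⟨hp, hpN⟩, hpM⟩
    · exact (hpN.2 hp).elim
  · rintro p ⟨hp, hpW⟩
    exact h3 (fun h => hpW (hsub h).2)
  · refine h4.mono ?_
    rintro p ⟨hp, hpNM⟩
    refine ⟨hp, ?_⟩
    rintro (h | h)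
    · exact hpNM (Or.inl (Or.inl h))
    · exact hpNM (Or.inr h)

/-- Main induction in the strongly paracompact case. -/
theorem strong_core [T4Space X] [T4Space Y] (hX : FiniteSumInd X)
    (hY : FiniteSumInd Y) (hZ : StronglyParacompact (X × Y)) :
    ∀ (K : ℕ) (F : Set (X × Y)), IsClosed F →
      (∀ z, ∃ O, IsOpen O ∧ z ∈ O ∧ Small K (F ∩ O)) → SInd K F := by
  intro K
  induction K with
  | zero =>
    intro F _ h
    show F = ∅
    rw [← subset_empty_iff]
    intro z hz
    obtain ⟨O, _, hzO, hs⟩ := h z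
    have := hs.eq_empty
    have hz' : z ∈ F ∩ O := ⟨hz, hzO⟩
    rw [this] at hz'
    exact hz'
  | succ K ih =>
    intro F hF h P Q hP hQ hPQ
    classical
    -- a pair of open sets around each point together with a type
    have hpt : ∀ z : X × Y, ∃ (N M : Set (X × Y)) (b : Bool), IsOpen N ∧ IsOpen M ∧ z ∈ N ∧
        F ∩ N ∩ M = ∅ ∧ (b = true → F ∩ Q ⊆ M) ∧ (b = false → F ∩ P ⊆ M) ∧
        Small K (F \ (N ∪ M)) := by
      intro z
      obtain ⟨O, hO, hzO, hs⟩ := h z
      by_cases hzQ : z ∈ F ∩ Q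
      · have hzP : z ∈ (F ∩ P)ᶜ := by
          intro hzP
          have : z ∈ F ∩ P ∩ Q := ⟨hzP, hzQ.2⟩
          rw [hPQ] at this
          exact this
        obtain ⟨N, M, hN, hM, h1, h2, h3, h4⟩ := point_partition hX hY hF hO hzO hs
          (hF.inter hP).isOpen_compl hzP
        refine ⟨N, M, false, hN, hM, h1, h2, by simp, fun _ => ?_, h4⟩
        intro p hp
        exact h3 ⟨hp.1, fun hpc => hpc hp⟩
      · obtain ⟨N, M, hN, hM, h1, h2, h3, h4⟩ := point_partition hX hY hF hO hzO hs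
          (hF.inter hQ).isOpen_compl hzQ
        refine ⟨N, M, true, hN, hM, h1, h2, fun _ => ?_, by simp, h4⟩
        intro p hp
        exact h3 ⟨hp.1, fun hpc => hpc hp⟩
    choose N M b hN hM hzN hNM hbQ hbP hSm using hpt
    obtain ⟨r, hro, hrs⟩ := hZ.decomp N hN (by
      rw [eq_univ_iff_forall]
      exact fun z => mem_iUnion.mpr ⟨z, hzN z⟩)
    choose s hs using hrs
    -- the sequence attached to the class of `z`
    let rep : X × Y → X × Y := fun z => (Quotient.mk r z).out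
    have hrep : ∀ z, r (rep z) z := fun z => Quotient.exact (Quotient.out_eq (Quotient.mk r z))
    have hrep' : ∀ z z', r z z' → rep z = rep z' := by
      intro z z' hzz
      show (Quotient.mk r z).out = (Quotient.mk r z').out
      rw [Quotient.sound hzz]
    let σ : X × Y → ℕ → X × Y := fun z => s (rep z)
    have hσ : ∀ z z', r z z' → σ z = σ z' := by
      intro z z' hzz
      show s (rep z) = s (rep z')
      rw [hrep' z z' hzz]
    let G0 : (ℕ → X × Y) → Set (X × Y) := fun t =>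
      ⋃ n, ⋃ (_ : b (t n) = true), (N (t n) ∩ ⋂ j ∈ Finset.range n, ⋂ (_ : b (t j) = false), M (t j))
    let H0 : (ℕ → X × Y) → Set (X × Y) := fun t =>
      ⋃ n, ⋃ (_ : b (t n) = false), (N (t n) ∩ ⋂ j ∈ Finset.range n, ⋂ (_ : b (t j) = true), M (t j))
    have hG0 : ∀ t, IsOpen (G0 t) := by
      intro t
      refine isOpen_iUnion fun n => isOpen_iUnion fun _ => (hN _).inter ?_
      exact isOpen_biInter_finset fun j _ => isOpen_iInter_of_finite fun _ => hM _
    have hH0 : ∀ t, IsOpen (H0 t) := by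
      intro t
      refine isOpen_iUnion fun n => isOpen_iUnion fun _ => (hN _).inter ?_
      exact isOpen_biInter_finset fun j _ => isOpen_iInter_of_finite fun _ => hM _
    have memG0 : ∀ t z, z ∈ G0 t ↔ ∃ n, b (t n) = true ∧ z ∈ N (t n) ∧
        ∀ j < n, b (t j) = false → z ∈ M (t j) := by
      intro t z
      simp only [G0, mem_iUnion, mem_inter_iff, mem_iInter, Finset.mem_range, exists_prop]
    have memH0 : ∀ t z, z ∈ H0 t ↔ ∃ n, b (t n) = false ∧ z ∈ N (t n) ∧
        ∀ j < n, b (t j) = true → z ∈ M (t j) := by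
      intro t z
      simp only [H0, mem_iUnion, mem_inter_iff, mem_iInter, Finset.mem_range, exists_prop]
    have hdisj : ∀ n z, z ∈ F → z ∈ N n → z ∈ M n → False := by
      intro n z hz h1 h2
      have : z ∈ F ∩ N n ∩ M n := ⟨⟨hz, h1⟩, h2⟩
      rw [hNM] at this
      exact this
    have hcl : ∀ z, {z' | r z z'} = {z' | rep z' = rep z} := by
      intro z
      ext z'
      constructor
      · intro hz
        exact (hrep' z z' hz).symm
      · intro hz
        have h1 := hrep z'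
        have hz' : rep z' = rep z := hz
        rw [hz'] at h1
        exact r.trans (r.symm (hrep z)) h1
    have hopen : ∀ (A : (ℕ → X × Y) → Set (X × Y)), (∀ t, IsOpen (A t)) →
        IsOpen {z | z ∈ A (σ z)} := by
      intro A hA
      have : {z | z ∈ A (σ z)} = ⋃ z0, ({z' | r z0 z'} ∩ A (σ z0)) := by
        ext z
        constructor
        · intro hz
          exact mem_iUnion.mpr ⟨z, r.refl z, hz⟩
        · intro hz
          obtain ⟨z0, hz0, hz1⟩ := mem_iUnion.mp hz
          show z ∈ A (σ z)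
          rwa [← hσ z0 z hz0]
      rw [this]
      exact isOpen_iUnion fun z0 => (hro z0).inter (hA _)
    -- every point lies in some member of its sequence
    have hcov : ∀ z, ∃ n, z ∈ N (σ z n) := by
      intro z
      have := hs (rep z) (hrep z)
      exact mem_iUnion.mp this
    refine ⟨{z | z ∈ G0 (σ z)}, {z | z ∈ H0 (σ z)}, hopen G0 hG0, hopen H0 hH0, ?_, ?_, ?_, ?_⟩
    · rintro z ⟨hz, hzP⟩
      show z ∈ G0 (σ z)
      rw [memG0]
      obtain ⟨n, hn⟩ := hcov z
      refine ⟨n, ?_, hn, ?_⟩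
      · by_contra hb
        have hb' : b (σ z n) = false := by simpa using hb
        exact hdisj _ z hz hn (hbP _ hb' ⟨hz, hzP⟩)
      · intro j _ hb
        exact hbP _ hb ⟨hz, hzP⟩
    · rintro z ⟨hz, hzQ⟩
      show z ∈ H0 (σ z)
      rw [memH0]
      obtain ⟨n, hn⟩ := hcov z
      refine ⟨n, ?_, hn, ?_⟩
      · by_contra hb
        have hb' : b (σ z n) = true := by simpa using hb
        exact hdisj _ z hz hn (hbQ _ hb' ⟨hz, hzQ⟩)
      · intro j _ hb
        exact hbQ _ hb ⟨hz, hzQ⟩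
    · rw [← subset_empty_iff]
      rintro z ⟨⟨hz, hzG⟩, hzH⟩
      obtain ⟨n, hbn, hzn, hn⟩ := (memG0 _ _).mp hzG
      obtain ⟨m, hbm, hzm, hm⟩ := (memH0 _ _).mp hzH
      rcases lt_trichotomy n m with hnm | hnm | hnm
      · exact hdisj _ z hz hzn (hm n hnm hbn)
      · rw [hnm, hbm] at hbn
        exact absurd hbn (by simp)
      · exact hdisj _ z hz hzm (hn m hnm hbm)
    · apply ih
      · rw [Set.sdiff_eq]
        exact hF.inter ((hopen G0 hG0).union (hopen H0 hH0)).isClosed_compl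
      · intro z0
        obtain ⟨n, hn⟩ := hcov z0
        refine ⟨{z' | r z0 z'} ∩ N (σ z0 n), (hro z0).inter (hN _), ⟨r.refl z0, hn⟩, ?_⟩
        refine (Small.biUnion_finite hX hY (finite_Iic n)
          (T := fun j => F \ (N (σ z0 j) ∪ M (σ z0 j))) (fun j _ => hSm _)).mono ?_
        rintro z ⟨⟨hz, hzGH⟩, hzr, hzN'⟩
        have hσz : σ z = σ z0 := (hσ z0 z hzr).symm
        by_contra hcon
        have hall : ∀ j ≤ n, z ∈ N (σ z j) ∨ z ∈ M (σ z j) := by
          intro j hj
          by_contra hj'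
          apply hcon
          refine mem_biUnion (show j ∈ Iic n from hj) ⟨hz, ?_⟩
          rw [← hσz]
          exact hj'
        have hex : ∃ j, z ∈ N (σ z j) := ⟨n, by rw [hσz]; exact hzN'⟩
        have hmin := Nat.find_spec hex
        have hle : Nat.find hex ≤ n := Nat.find_min' hex (by rw [hσz]; exact hzN')
        have hM' : ∀ j < Nat.find hex, z ∈ M (σ z j) := by
          intro j hj
          rcases hall j (by omega) with h1 | h1
          · exact absurd h1 (Nat.find_min hex hj)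
          · exact h1
        apply hzGH
        cases hb : b (σ z (Nat.find hex)) with
        | true =>
          left
          exact (memG0 _ _).mpr ⟨_, hb, hmin, fun j hj _ => hM' j hj⟩
        | false =>
          right
          exact (memH0 _ _).mpr ⟨_, hb, hmin, fun j hj _ => hM' j hj⟩

end Pool.Agent.Helper84.IndDim
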